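import Pool.Agent.MP79dd7e.Cuts

set_option autoImplicit false

namespace Pool.Agent.MP79dd7e

open MeasureTheory Set Filter Topology

variable {R : Set (ℝ × ℝ)}

/-- Basic hypotheses on the region. -/
structure Body (R : Set (ℝ × ℝ)) : Prop where
  convex : Convex ℝ R
  compact : IsCompact R
  int : (interior R).Nonempty

theorem Body.finite (h : Body R) : volume R ≠ ⊤ := h.compact.measure_lt_top.ne

theorem Body.pos (h : Body R) : 0 < volume.real R := by
  have h1 : 0 < volume (interior R) := isOpen_interior.measure_pos volume h.int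
  have h2 : 0 < volume R := lt_of_lt_of_le h1 (measure_mono interior_subset)
  exact ENNReal.toReal_pos h2.ne' h.finite

theorem real_mono (h : Body R) {S T : Set (ℝ × ℝ)} (hST : S ⊆ T) (hT : T ⊆ R) :
    volume.real S ≤ volume.real T :=
  measureReal_mono hST (measure_ne_top_of_subset hT h.finite)

theorem strict_cut (h : Body R) {f : ℝ × ℝ → ℝ} (hf : Continuous f)
    (hl : ∀ x y : ℝ × ℝ, ∀ a b : ℝ, a + b = 1 → f (a • x + b • y) = a * f x + b * f y)
    {s₁ s₂ : ℝ} (h12 : s₁ < s₂) (h1 : 0 < volume.real (R ∩ {x | f x ≤ s₁}))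
    (h2 : volume.real (R ∩ {x | f x ≤ s₂}) < volume.real R) :
    volume.real (R ∩ {x | f x ≤ s₁}) < volume.real (R ∩ {x | f x ≤ s₂}) := by
  have ha : ∃ a ∈ R, f a ≤ s₁ := by
    by_contra hcon
    push Not at hcon
    have : R ∩ {x | f x ≤ s₁} = ∅ := by
      ext x
      simp only [mem_inter_iff, mem_ofPred_eq, mem_empty_iff_false, iff_false, not_and, not_le]
      exact fun hx => hcon x hx
    rw [this] at h1
    simp at h1
  have hb : ∃ b ∈ R, s₂ < f b := by
    by_contra hcon
    push Not at hcon
    have : R ∩ {x | f x ≤ s₂} = R := by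
      ext x
      simp only [mem_inter_iff, mem_ofPred_eq, and_iff_left_iff_imp]
      exact fun hx => hcon x hx
    rw [this] at h2
    exact lt_irrefl _ h2
  obtain ⟨a, haR, has⟩ := ha
  obtain ⟨b, hbR, hbs⟩ := hb
  set mid := (s₁ + s₂) / 2 with hmid
  have hcl : closure (interior R) = R := by
    rw [h.convex.closure_interior_eq_closure_of_nonempty_interior h.int,
      h.compact.isClosed.closure_eq]
  have ha' : ∃ a' ∈ interior R, f a' < mid := by
    have h3 : a ∈ closure (interior R) := by rw [hcl]; exact haR
    rw [mem_closure_iff] at h3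
    obtain ⟨a', h4, h5⟩ := h3 {x | f x < mid} (isOpen_lt hf continuous_const)
      (by simp only [mem_ofPred_eq]; linarith)
    exact ⟨a', h5, h4⟩
  have hb' : ∃ b' ∈ interior R, mid < f b' := by
    have h3 : b ∈ closure (interior R) := by rw [hcl]; exact hbR
    rw [mem_closure_iff] at h3
    obtain ⟨b', h4, h5⟩ := h3 {x | mid < f x} (isOpen_lt continuous_const hf)
      (by simp only [mem_ofPred_eq]; linarith)
    exact ⟨b', h5, h4⟩
  obtain ⟨a', ha1, ha2⟩ := ha'
  obtain ⟨b', hb1, hb2⟩ := hb'
  set t := (mid - f a') / (f b' - f a') with ht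
  have hd : 0 < f b' - f a' := by linarith
  have ht0 : 0 ≤ t := div_nonneg (by linarith) hd.le
  have ht1 : t ≤ 1 := by rw [ht, div_le_one hd]; linarith
  have hc : (1 - t) • a' + t • b' ∈ interior R :=
    h.convex.interior ha1 hb1 (by linarith) ht0 (by ring)
  have hfc : f ((1 - t) • a' + t • b') = mid := by
    rw [hl _ _ _ _ (by ring)]
    have h5 : t * (f b' - f a') = mid - f a' := by rw [ht]; field_simp
    linarith
  have hU : IsOpen (interior R ∩ {x | s₁ < f x ∧ f x < s₂}) :=
    isOpen_interior.inter ((isOpen_lt continuous_const hf).inter (isOpen_lt hf continuous_const))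
  have hUne : (interior R ∩ {x | s₁ < f x ∧ f x < s₂}).Nonempty :=
    ⟨_, hc, by simp only [mem_ofPred_eq, hfc]; constructor <;> linarith⟩
  have hUpos : 0 < volume.real (interior R ∩ {x | s₁ < f x ∧ f x < s₂}) :=
    ENNReal.toReal_pos (hU.measure_pos volume hUne).ne'
      (measure_ne_top_of_subset (inter_subset_left.trans interior_subset) h.finite)
  have hdisj : Disjoint (R ∩ {x | f x ≤ s₁}) (interior R ∩ {x | s₁ < f x ∧ f x < s₂}) := by
    rw [Set.disjoint_left]
    rintro x ⟨_, hx⟩ ⟨_, hx1, _⟩
    simp only [mem_ofPred_eq] at hx hx1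
    linarith
  have hsub : (R ∩ {x | f x ≤ s₁}) ∪ (interior R ∩ {x | s₁ < f x ∧ f x < s₂}) ⊆
      R ∩ {x | f x ≤ s₂} := by
    rintro x (⟨hx, hx'⟩ | ⟨hx, _, hx'⟩)
    · exact ⟨hx, by simp only [mem_ofPred_eq] at hx' ⊢; linarith⟩
    · exact ⟨interior_subset hx, hx'.le⟩
  have hu := measureReal_union hdisj hU.measurableSet
    (h₁ := measure_ne_top_of_subset inter_subset_left h.finite)
    (h₂ := measure_ne_top_of_subset (inter_subset_left.trans interior_subset) h.finite)
  have := real_mono h hsub inter_subset_left
  linarith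

/-- A family of coordinate functions. -/
structure Fam (F : ℝ → ℝ × ℝ → ℝ) : Prop where
  cont : ∀ m, Continuous (F m)
  aff : ∀ m, ∀ x y : ℝ × ℝ, ∀ a b : ℝ, a + b = 1 →
    F m (a • x + b • y) = a * F m x + b * F m y

theorem fam_fA : Fam fA where
  cont := continuous_fA'
  aff m x y a b _ := by
    simp only [fA, Prod.snd_add, Prod.smul_snd, Prod.fst_add, Prod.smul_fst, smul_eq_mul]; ring

theorem fam_fB : Fam fB where
  cont := continuous_fB'
  aff m x y a b _ := by
    simp only [fB, Prod.snd_add, Prod.smul_snd, Prod.fst_add, Prod.smul_fst, smul_eq_mul]; ring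

theorem exists_bisector (h : Body R) {F : ℝ → ℝ × ℝ → ℝ} (hF : Fam F)
    (hc : Continuous (fun q : ℝ × ℝ => volume.real (R ∩ {x | F q.1 x ≤ q.2}))) :
    ∃ σ : ℝ → ℝ, Continuous σ ∧ (∀ m, volume.real (R ∩ {x | F m x ≤ σ m}) = volume.real R / 2) ∧
      (∀ m s, volume.real (R ∩ {x | F m x ≤ s}) ≤ volume.real R / 2 → s ≤ σ m) ∧
      (∀ m s, volume.real R / 2 ≤ volume.real (R ∩ {x | F m x ≤ s}) → σ m ≤ s) := by
  have hV := h.pos
  have hex : ∀ m, ∃ s, volume.real (R ∩ {x | F m x ≤ s}) = volume.real R / 2 := by
    intro m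
    obtain ⟨K, hK⟩ := h.compact.exists_bound_of_continuousOn (hF.cont m).continuousOn
    have hlow : volume.real (R ∩ {x | F m x ≤ -K - 1}) = 0 := by
      have : R ∩ {x | F m x ≤ -K - 1} = ∅ := by
        ext x
        simp only [mem_inter_iff, mem_ofPred_eq, mem_empty_iff_false, iff_false, not_and, not_le]
        intro hx
        have := hK x hx
        rw [Real.norm_eq_abs, abs_le] at this
        linarith
      rw [this]; simp
    have hhigh : volume.real (R ∩ {x | F m x ≤ K}) = volume.real R := by
      have : R ∩ {x | F m x ≤ K} = R := by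
        ext x
        simp only [mem_inter_iff, mem_ofPred_eq, and_iff_left_iff_imp]
        intro hx
        have := hK x hx
        rw [Real.norm_eq_abs, abs_le] at this
        exact this.2
      rw [this]
    have hK0 : -K - 1 ≤ K := by
      obtain ⟨x, hx⟩ := h.int
      have := hK x (interior_subset hx)
      have := norm_nonneg (F m x)
      linarith
    have hcont : ContinuousOn (fun s => volume.real (R ∩ {x | F m x ≤ s})) (Icc (-K - 1) K) := by
      have := hc.comp (Continuous.prodMk_right m)
      exact this.continuousOn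
    have := intermediate_value_Icc hK0 hcont
    have hmem : volume.real R / 2 ∈ Icc (volume.real (R ∩ {x | F m x ≤ -K - 1}))
        (volume.real (R ∩ {x | F m x ≤ K})) := by
      rw [hlow, hhigh]; constructor <;> linarith
    obtain ⟨s, _, hs⟩ := this hmem
    exact ⟨s, hs⟩
  choose σ hσ using hex
  have hmono : ∀ m, Monotone (fun s => volume.real (R ∩ {x | F m x ≤ s})) := by
    intro m s s' hss
    apply real_mono h _ inter_subset_left
    rintro x ⟨hx, hx'⟩
    exact ⟨hx, le_trans hx' hss⟩
  have hlt : ∀ m s, s < σ m → volume.real (R ∩ {x | F m x ≤ s}) < volume.real R / 2 := by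
    intro m s hs
    rcases lt_or_ge (volume.real (R ∩ {x | F m x ≤ s})) (volume.real R / 2) with h1 | h1
    · exact h1
    · exfalso
      have := strict_cut h (hF.cont m) (hF.aff m) hs (by linarith) (by rw [hσ]; linarith)
      rw [hσ] at this
      linarith
  have hgt : ∀ m s, σ m < s → volume.real R / 2 < volume.real (R ∩ {x | F m x ≤ s}) := by
    intro m s hs
    rcases lt_or_ge (volume.real R / 2) (volume.real (R ∩ {x | F m x ≤ s})) with h1 | h1
    · exact h1
    · exfalso
      have := strict_cut h (hF.cont m) (hF.aff m) hs (by rw [hσ]; linarith) (by linarith)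
      rw [hσ] at this
      linarith
  refine ⟨σ, ?_, hσ, ?_, ?_⟩
  · rw [continuous_iff_continuousAt]
    intro m
    rw [ContinuousAt, tendsto_order]
    constructor
    · intro a ha
      have h1 := hlt m a ha
      have h2 : ContinuousAt (fun m => volume.real (R ∩ {x | F m x ≤ a})) m :=
        (hc.comp (Continuous.prodMk_left a)).continuousAt
      filter_upwards [h2.eventually_lt continuousAt_const h1] with m' hm'
      by_contra hcon
      have h3 := hmono m' (not_lt.1 hcon)
      simp only [hσ] at h3
      linarith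
    · intro a ha
      have h1 := hgt m a ha
      have h2 : ContinuousAt (fun m => volume.real (R ∩ {x | F m x ≤ a})) m :=
        (hc.comp (Continuous.prodMk_left a)).continuousAt
      filter_upwards [continuousAt_const.eventually_lt h2 h1] with m' hm'
      by_contra hcon
      have h3 := hmono m' (not_lt.1 hcon)
      simp only [hσ] at h3
      linarith
  · intro m s hs
    by_contra hcon
    have := hgt m s (not_le.1 hcon)
    linarith
  · intro m s hs
    by_contra hcon
    have := hlt m s (not_le.1 hcon)
    linarith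

end Pool.Agent.MP79dd7e
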