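import Pool.Agent.MP79dd7e.Count

set_option autoImplicit false

namespace Pool.Agent.MP79dd7e

open MeasureTheory Set Filter Topology

/-- A linear constraint `a x + b y ≤ c`, also used for a column `(x, lower, upper)`. -/
abbrev Con := ℤ × ℤ × ℤ

/-- The region cut out by a list of linear constraints. -/
def Reg (C : List Con) : Set (ℝ × ℝ) :=
  {x | ∀ c ∈ C, (c.1 : ℝ) * x.1 + (c.2.1 : ℝ) * x.2 ≤ (c.2.2 : ℝ)}

/-- The integer point satisfies the constraints. -/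
def okPt (C : List Con) (x y : ℤ) : Bool := C.all (fun c => decide (c.1 * x + c.2.1 * y ≤ c.2.2))

/-- Twice the area of a chain of columns. -/
def area2 : List Con → ℤ
  | [] => 0
  | [_] => 0
  | a :: b :: L => (b.1 - a.1) * ((a.2.2 - a.2.1) + (b.2.2 - b.2.1)) + area2 (b :: L)

/-- Check for lower bounds. -/
def chkLow (C : List Con) : List Con → Bool
  | [] => true
  | [_] => true
  | a :: b :: L => okPt C a.1 a.2.1 && okPt C a.1 a.2.2 && okPt C b.1 b.2.1 &&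
      okPt C b.1 b.2.2 && decide (a.1 < b.1) && decide (a.2.1 ≤ a.2.2) &&
      decide (b.2.1 ≤ b.2.2) && chkLow C (b :: L)

/-- Linear interpolation. -/
noncomputable def lin (x₀ x₁ v₀ v₁ x : ℝ) : ℝ := v₀ + (v₁ - v₀) / (x₁ - x₀) * (x - x₀)

/-- A trapezoid with vertical sides. -/
def trap (x₀ x₁ l₀ l₁ u₀ u₁ : ℝ) : Set (ℝ × ℝ) :=
  {p | (x₀ < p.1 ∧ p.1 ≤ x₁) ∧ (lin x₀ x₁ l₀ l₁ p.1 ≤ p.2 ∧ p.2 ≤ lin x₀ x₁ u₀ u₁ p.1)}

theorem continuous_lin (x₀ x₁ v₀ v₁ : ℝ) : Continuous (lin x₀ x₁ v₀ v₁) := by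
  unfold lin; fun_prop

theorem measurable_trap (x₀ x₁ l₀ l₁ u₀ u₁ : ℝ) : MeasurableSet (trap x₀ x₁ l₀ l₁ u₀ u₁) := by
  unfold trap
  apply MeasurableSet.inter
  · apply MeasurableSet.inter
    · exact measurableSet_lt measurable_const measurable_fst
    · exact measurableSet_le measurable_fst measurable_const
  · apply MeasurableSet.inter
    · exact measurableSet_le ((continuous_lin _ _ _ _).measurable.comp measurable_fst)
        measurable_snd
    · exact measurableSet_le measurable_snd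
        ((continuous_lin _ _ _ _).measurable.comp measurable_fst)

theorem lin_le_lin {x₀ x₁ l₀ l₁ u₀ u₁ x : ℝ} (h : x₀ < x₁) (h0 : l₀ ≤ u₀) (h1 : l₁ ≤ u₁)
    (hx : x₀ ≤ x) (hx' : x ≤ x₁) : lin x₀ x₁ l₀ l₁ x ≤ lin x₀ x₁ u₀ u₁ x := by
  have hd : 0 < x₁ - x₀ := sub_pos.2 h
  have e : lin x₀ x₁ u₀ u₁ x - lin x₀ x₁ l₀ l₁ x =
      ((u₀ - l₀) * (x₁ - x) + (u₁ - l₁) * (x - x₀)) / (x₁ - x₀) := by
    unfold lin; field_simp; ring
  have : 0 ≤ ((u₀ - l₀) * (x₁ - x) + (u₁ - l₁) * (x - x₀)) / (x₁ - x₀) := by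
    apply div_nonneg _ hd.le
    have := mul_nonneg (sub_nonneg.2 h0) (sub_nonneg.2 hx')
    have := mul_nonneg (sub_nonneg.2 h1) (sub_nonneg.2 hx)
    linarith
  linarith

theorem volume_trap {x₀ x₁ l₀ l₁ u₀ u₁ : ℝ} (h : x₀ < x₁) (h0 : l₀ ≤ u₀) (h1 : l₁ ≤ u₁) :
    volume (trap x₀ x₁ l₀ l₁ u₀ u₁) =
      ENNReal.ofReal ((x₁ - x₀) * ((u₀ - l₀) + (u₁ - l₁)) / 2) := by
  have hd : 0 < x₁ - x₀ := sub_pos.2 h
  rw [Measure.volume_eq_prod, Measure.prod_apply (measurable_trap _ _ _ _ _ _)]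
  have hsec : ∀ x : ℝ, volume (Prod.mk x ⁻¹' trap x₀ x₁ l₀ l₁ u₀ u₁) =
      (Ioc x₀ x₁).indicator
        (fun x => ENNReal.ofReal (lin x₀ x₁ u₀ u₁ x - lin x₀ x₁ l₀ l₁ x)) x := by
    intro x
    by_cases hx : x ∈ Ioc x₀ x₁
    · rw [indicator_of_mem hx, ← Real.volume_Icc]
      congr 1
      ext y
      simp only [trap, mem_preimage, mem_ofPred_eq, mem_Icc]
      constructor
      · exact fun h => h.2
      · exact fun h => ⟨hx, h⟩
    · rw [indicator_of_notMem hx]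
      have : Prod.mk x ⁻¹' trap x₀ x₁ l₀ l₁ u₀ u₁ = ∅ := by
        ext y
        simp only [trap, mem_preimage, mem_ofPred_eq, mem_empty_iff_false, iff_false]
        exact fun h => hx h.1
      rw [this]; simp
  simp_rw [hsec]
  rw [lintegral_indicator measurableSet_Ioc]
  rw [← ofReal_integral_eq_lintegral_ofReal]
  · congr 1
    rw [← intervalIntegral.integral_of_le h.le]
    have e : ∀ x : ℝ, lin x₀ x₁ u₀ u₁ x - lin x₀ x₁ l₀ l₁ x =
        ((u₀ - l₀) - ((u₁ - l₁) - (u₀ - l₀)) / (x₁ - x₀) * x₀) +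
          ((u₁ - l₁) - (u₀ - l₀)) / (x₁ - x₀) * x := by
      intro x; unfold lin; field_simp; ring
    simp_rw [e]
    rw [intervalIntegral.integral_add
        (Continuous.intervalIntegrable (by fun_prop) _ _)
        (Continuous.intervalIntegrable (by fun_prop) _ _),
      intervalIntegral.integral_const, intervalIntegral.integral_const_mul, integral_id]
    simp only [smul_eq_mul]
    field_simp
    ring
  · exact (Continuous.integrableOn_Icc
      ((continuous_lin _ _ _ _).sub (continuous_lin _ _ _ _))).mono_set Ioc_subset_Icc_self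
  · rw [Filter.EventuallyLE, ae_restrict_iff' measurableSet_Ioc]
    filter_upwards with x hx
    exact sub_nonneg.2 (lin_le_lin h h0 h1 hx.1.le hx.2)

theorem okPt_spec {C : List Con} {x y : ℤ} (h : okPt C x y = true) :
    ((x : ℝ), (y : ℝ)) ∈ Reg C := by
  intro c hc
  unfold okPt at h
  rw [List.all_eq_true] at h
  have := h c hc
  rw [decide_eq_true_eq] at this
  show (c.1 : ℝ) * (x : ℝ) + (c.2.1 : ℝ) * (y : ℝ) ≤ (c.2.2 : ℝ)
  exact_mod_cast this

theorem convex_Reg (C : List Con) : Convex ℝ (Reg C) := by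
  intro x hx y hy a b ha hb hab c hc
  have h1 := mul_le_mul_of_nonneg_left (hx c hc) ha
  have h2 := mul_le_mul_of_nonneg_left (hy c hc) hb
  simp only [Prod.fst_add, Prod.smul_fst, Prod.snd_add, Prod.smul_snd, smul_eq_mul]
  have h3 : (c.2.2 : ℝ) = a * c.2.2 + b * c.2.2 := by rw [← add_mul, hab, one_mul]
  rw [h3]
  linarith

/-- A point of a closed trapezoid lies in every convex set containing its four corners. -/
theorem mem_of_corners {S : Set (ℝ × ℝ)} (hS : Convex ℝ S) {x₀ x₁ l₀ l₁ u₀ u₁ : ℝ}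
    (h : x₀ < x₁) (p1 : (x₀, l₀) ∈ S) (p2 : (x₁, l₁) ∈ S) (p3 : (x₀, u₀) ∈ S)
    (p4 : (x₁, u₁) ∈ S) {p : ℝ × ℝ} (hx : x₀ ≤ p.1) (hx' : p.1 ≤ x₁)
    (hl : lin x₀ x₁ l₀ l₁ p.1 ≤ p.2) (hu : p.2 ≤ lin x₀ x₁ u₀ u₁ p.1) : p ∈ S := by
  have hd : 0 < x₁ - x₀ := sub_pos.2 h
  set θ := (p.1 - x₀) / (x₁ - x₀) with hθ
  have hθ0 : 0 ≤ θ := div_nonneg (by linarith) hd.le
  have hθ1 : θ ≤ 1 := by rw [hθ, div_le_one hd]; linarith
  have hpx : p.1 = (1 - θ) * x₀ + θ * x₁ := by rw [hθ]; field_simp; ring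
  have q1 : (p.1, lin x₀ x₁ l₀ l₁ p.1) ∈ S := by
    have := hS p1 p2 (a := 1 - θ) (b := θ) (by linarith) hθ0 (by ring)
    convert this using 1
    ext
    · simp only [Prod.fst_add, Prod.smul_fst, smul_eq_mul]; exact hpx
    · simp only [Prod.snd_add, Prod.smul_snd, smul_eq_mul, lin]; rw [hθ]; field_simp; ring
  have q2 : (p.1, lin x₀ x₁ u₀ u₁ p.1) ∈ S := by
    have := hS p3 p4 (a := 1 - θ) (b := θ) (by linarith) hθ0 (by ring)
    convert this using 1
    ext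
    · simp only [Prod.fst_add, Prod.smul_fst, smul_eq_mul]; exact hpx
    · simp only [Prod.snd_add, Prod.smul_snd, smul_eq_mul, lin]; rw [hθ]; field_simp; ring
  generalize lin x₀ x₁ l₀ l₁ p.1 = l at *
  generalize lin x₀ x₁ u₀ u₁ p.1 = u at *
  rcases eq_or_lt_of_le (hl.trans hu) with hlu | hlu
  · have : p = (p.1, l) := by
      ext
      · rfl
      · show p.2 = l
        linarith
    rw [this]; exact q1
  · have hd' : 0 < u - l := sub_pos.2 hlu
    have := hS q1 q2 (a := (u - p.2) / (u - l)) (b := (p.2 - l) / (u - l))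
      (div_nonneg (by linarith) hd'.le) (div_nonneg (by linarith) hd'.le)
      (by field_simp; ring)
    convert this using 1
    ext
    · simp only [Prod.fst_add, Prod.smul_fst, smul_eq_mul]; field_simp; ring
    · simp only [Prod.snd_add, Prod.smul_snd, smul_eq_mul]; field_simp; ring

theorem chkLow_cons {C : List Con} {a b : Con} {L : List Con}
    (h : chkLow C (a :: b :: L) = true) :
    (okPt C a.1 a.2.1 = true ∧ okPt C a.1 a.2.2 = true ∧ okPt C b.1 b.2.1 = true ∧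
      okPt C b.1 b.2.2 = true) ∧ (a.1 < b.1 ∧ a.2.1 ≤ a.2.2 ∧ b.2.1 ≤ b.2.2) ∧
      chkLow C (b :: L) = true := by
  unfold chkLow at h
  simp only [Bool.and_eq_true, decide_eq_true_eq] at h
  tauto

theorem area2_nonneg {C : List Con} : ∀ (L : List Con) (a : Con), chkLow C (a :: L) = true →
    0 ≤ area2 (a :: L) := by
  intro L
  induction L with
  | nil => intro a _; simp [area2]
  | cons b L ih =>
    intro a h
    obtain ⟨_, ⟨h1, h2, h3⟩, h4⟩ := chkLow_cons h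
    have := ih b h4
    unfold area2
    have : 0 ≤ (b.1 - a.1) * ((a.2.2 - a.2.1) + (b.2.2 - b.2.1)) :=
      mul_nonneg (by linarith) (by linarith)
    linarith

theorem low_aux (C : List Con) : ∀ (L : List Con) (a : Con), chkLow C (a :: L) = true →
    ENNReal.ofReal ((area2 (a :: L) : ℝ) / 2) ≤ volume (Reg C ∩ {x | (a.1 : ℝ) < x.1}) := by
  intro L
  induction L with
  | nil => intro a _; simp [area2]
  | cons b L ih =>
    intro a h
    obtain ⟨⟨o1, o2, o3, o4⟩, ⟨h1, h2, h3⟩, h4⟩ := chkLow_cons h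
    have hr1 : (a.1 : ℝ) < (b.1 : ℝ) := by exact_mod_cast h1
    have hr2 : (a.2.1 : ℝ) ≤ (a.2.2 : ℝ) := by exact_mod_cast h2
    have hr3 : (b.2.1 : ℝ) ≤ (b.2.2 : ℝ) := by exact_mod_cast h3
    have hv := volume_trap hr1 hr2 hr3
    have hih := ih b h4
    have hn := area2_nonneg L b h4
    have harea : (area2 (a :: b :: L) : ℝ) / 2 =
        ((b.1 : ℝ) - a.1) * (((a.2.2 : ℝ) - a.2.1) + ((b.2.2 : ℝ) - b.2.1)) / 2 +
          (area2 (b :: L) : ℝ) / 2 := by
      rw [area2]; push_cast; ring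
    rw [harea, ENNReal.ofReal_add, ← hv]
    · calc volume (trap a.1 b.1 a.2.1 b.2.1 a.2.2 b.2.2) +
            ENNReal.ofReal ((area2 (b :: L) : ℝ) / 2)
          ≤ volume (trap a.1 b.1 a.2.1 b.2.1 a.2.2 b.2.2) +
            volume (Reg C ∩ {x | (b.1 : ℝ) < x.1}) := by gcongr
        _ = volume (trap a.1 b.1 a.2.1 b.2.1 a.2.2 b.2.2 ∪
            (Reg C ∩ {x | (b.1 : ℝ) < x.1})) := by
          rw [measure_union' _ (measurable_trap _ _ _ _ _ _)]
          rw [Set.disjoint_left]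
          rintro x ⟨⟨_, hx⟩, _⟩ ⟨_, hx'⟩
          simp only [mem_ofPred_eq] at hx'
          linarith
        _ ≤ volume (Reg C ∩ {x | (a.1 : ℝ) < x.1}) := by
          apply measure_mono
          rintro x (⟨⟨hx, hx'⟩, hl, hu⟩ | ⟨hx, hx'⟩)
          · exact ⟨mem_of_corners (convex_Reg C) hr1 (okPt_spec o1) (okPt_spec o3)
              (okPt_spec o2) (okPt_spec o4) hx.le hx' hl hu, hx⟩
          · exact ⟨hx, by simp only [mem_ofPred_eq] at hx' ⊢; linarith⟩
    · apply div_nonneg _ (by norm_num)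
      exact mul_nonneg (by linarith) (by linarith)
    · apply div_nonneg _ (by norm_num)
      exact_mod_cast hn

theorem low (C L : List Con) (h : chkLow C L = true) :
    ENNReal.ofReal ((area2 L : ℝ) / 2) ≤ volume (Reg C) := by
  cases L with
  | nil => simp [area2]
  | cons a L => exact (low_aux C L a h).trans (measure_mono inter_subset_left)

/-- Constraint: below the upper edge. -/
def upEdge (a b : Con) : Con :=
  (a.2.2 - b.2.2, b.1 - a.1, (b.1 - a.1) * a.2.2 - (b.2.2 - a.2.2) * a.1)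

/-- Constraint: above the lower edge. -/
def loEdge (a b : Con) : Con :=
  (b.2.1 - a.2.1, a.1 - b.1, (b.2.1 - a.2.1) * a.1 - (b.1 - a.1) * a.2.1)

/-- Check for upper bounds. -/
def chkUp (C : List Con) : List Con → Bool
  | [] => false
  | [a] => decide ((1, 0, a.1) ∈ C)
  | a :: b :: L => decide (a.1 < b.1) && decide (a.2.1 ≤ a.2.2) && decide (b.2.1 ≤ b.2.2) &&
      decide (upEdge a b ∈ C) && decide (loEdge a b ∈ C) && chkUp C (b :: L)

theorem chkUp_cons {C : List Con} {a b : Con} {L : List Con}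
    (h : chkUp C (a :: b :: L) = true) :
    (a.1 < b.1 ∧ a.2.1 ≤ a.2.2 ∧ b.2.1 ≤ b.2.2) ∧ (upEdge a b ∈ C ∧ loEdge a b ∈ C) ∧
      chkUp C (b :: L) = true := by
  unfold chkUp at h
  simp only [Bool.and_eq_true, decide_eq_true_eq] at h
  tauto

theorem slab_bounds {C : List Con} {a b : Con} (h : (a.1 : ℝ) < b.1) (hu : upEdge a b ∈ C)
    (hl : loEdge a b ∈ C) {p : ℝ × ℝ} (hp : p ∈ Reg C) :
    lin a.1 b.1 a.2.1 b.2.1 p.1 ≤ p.2 ∧ p.2 ≤ lin a.1 b.1 a.2.2 b.2.2 p.1 := by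
  have hd : (0 : ℝ) < b.1 - a.1 := sub_pos.2 h
  have h1 := hp _ hu
  have h2 := hp _ hl
  simp only [upEdge, loEdge] at h1 h2
  push_cast at h1 h2
  constructor
  · unfold lin
    rw [← sub_nonneg]
    have : 0 ≤ ((b.1 - a.1 : ℝ) * (p.2 - a.2.1) - (b.2.1 - a.2.1) * (p.1 - a.1)) /
        (b.1 - a.1) := by
      apply div_nonneg _ hd.le
      linarith
    have e : p.2 - (a.2.1 + (b.2.1 - a.2.1) / (b.1 - a.1) * (p.1 - a.1)) =
        ((b.1 - a.1 : ℝ) * (p.2 - a.2.1) - (b.2.1 - a.2.1) * (p.1 - a.1)) / (b.1 - a.1) := by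
      field_simp
      ring
    rw [e]; exact this
  · unfold lin
    rw [← sub_nonneg]
    have : 0 ≤ ((b.2.2 - a.2.2 : ℝ) * (p.1 - a.1) - (b.1 - a.1) * (p.2 - a.2.2)) /
        (b.1 - a.1) := by
      apply div_nonneg _ hd.le
      linarith
    have e : (a.2.2 + (b.2.2 - a.2.2) / (b.1 - a.1) * (p.1 - a.1)) - p.2 =
        ((b.2.2 - a.2.2 : ℝ) * (p.1 - a.1) - (b.1 - a.1) * (p.2 - a.2.2)) / (b.1 - a.1) := by
      field_simp
      ring
    rw [e]; exact this

theorem up_aux (C : List Con) : ∀ (L : List Con) (a : Con), chkUp C (a :: L) = true →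
    0 ≤ area2 (a :: L) ∧
    volume (Reg C ∩ {x | (a.1 : ℝ) < x.1}) ≤ ENNReal.ofReal ((area2 (a :: L) : ℝ) / 2) := by
  intro L
  induction L with
  | nil =>
    intro a h
    refine ⟨by simp [area2], ?_⟩
    have hmem : ((1, 0, a.1) : Con) ∈ C := by
      unfold chkUp at h
      exact of_decide_eq_true h
    have : Reg C ∩ {x | (a.1 : ℝ) < x.1} = ∅ := by
      ext x
      simp only [mem_inter_iff, mem_ofPred_eq, mem_empty_iff_false, iff_false, not_and, not_lt]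
      intro hx
      have := hx _ hmem
      push_cast at this
      linarith
    rw [this]; simp
  | cons b L ih =>
    intro a h
    obtain ⟨⟨h1, h2, h3⟩, ⟨hu, hl⟩, h4⟩ := chkUp_cons h
    have hr1 : (a.1 : ℝ) < (b.1 : ℝ) := by exact_mod_cast h1
    have hr2 : (a.2.1 : ℝ) ≤ (a.2.2 : ℝ) := by exact_mod_cast h2
    have hr3 : (b.2.1 : ℝ) ≤ (b.2.2 : ℝ) := by exact_mod_cast h3
    have hv := volume_trap hr1 hr2 hr3
    obtain ⟨hn, hih⟩ := ih b h4
    have harea : (area2 (a :: b :: L) : ℝ) / 2 =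
        ((b.1 : ℝ) - a.1) * (((a.2.2 : ℝ) - a.2.1) + ((b.2.2 : ℝ) - b.2.1)) / 2 +
          (area2 (b :: L) : ℝ) / 2 := by
      rw [area2]; push_cast; ring
    have hA : (0 : ℝ) ≤ ((b.1 : ℝ) - a.1) * (((a.2.2 : ℝ) - a.2.1) + ((b.2.2 : ℝ) - b.2.1)) / 2 := by
      apply div_nonneg _ (by norm_num)
      exact mul_nonneg (by linarith) (by linarith)
    have hB : (0 : ℝ) ≤ (area2 (b :: L) : ℝ) / 2 := by
      apply div_nonneg _ (by norm_num)
      exact_mod_cast hn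
    refine ⟨?_, ?_⟩
    · unfold area2
      have : 0 ≤ (b.1 - a.1) * ((a.2.2 - a.2.1) + (b.2.2 - b.2.1)) :=
        mul_nonneg (by linarith) (by linarith)
      linarith
    · rw [harea, ENNReal.ofReal_add hA hB, ← hv]
      have hsub : Reg C ∩ {x | (a.1 : ℝ) < x.1} ⊆
          trap a.1 b.1 a.2.1 b.2.1 a.2.2 b.2.2 ∪ (Reg C ∩ {x | (b.1 : ℝ) < x.1}) := by
        rintro x ⟨hx, hx'⟩
        rcases le_or_gt x.1 (b.1 : ℝ) with h5 | h5
        · left
          exact ⟨⟨hx', h5⟩, slab_bounds hr1 hu hl hx⟩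
        · right
          exact ⟨hx, h5⟩
      refine (measure_mono hsub).trans ((measure_union_le _ _).trans ?_)
      gcongr

theorem up (C : List Con) (a : Con) (L : List Con) (h : chkUp C (a :: L) = true)
    (h0 : ((-1, 0, -a.1) : Con) ∈ C) :
    volume (Reg C) ≤ ENNReal.ofReal ((area2 (a :: L) : ℝ) / 2) := by
  have h1 : Reg C ⊆ {x : ℝ × ℝ | 1 * x.1 + 0 * x.2 = (a.1 : ℝ)} ∪
      (Reg C ∩ {x | (a.1 : ℝ) < x.1}) := by
    intro x hx
    have := hx _ h0
    push_cast at this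
    rcases eq_or_lt_of_le (show (a.1 : ℝ) ≤ x.1 by linarith) with h2 | h2
    · left; simp only [mem_ofPred_eq]; linarith
    · right; exact ⟨hx, h2⟩
  calc volume (Reg C) ≤ _ := measure_mono h1
    _ ≤ volume {x : ℝ × ℝ | 1 * x.1 + 0 * x.2 = (a.1 : ℝ)} +
        volume (Reg C ∩ {x | (a.1 : ℝ) < x.1}) := measure_union_le _ _
    _ = volume (Reg C ∩ {x | (a.1 : ℝ) < x.1}) := by
        rw [null_line 1 0 _ (Or.inl one_ne_zero), zero_add]
    _ ≤ _ := (up_aux C L a h).2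

/-- The corners of a chain of columns, as points of the plane. -/
def corners (L : List Con) : Set (ℝ × ℝ) :=
  {p | ∃ c ∈ L, p = ((c.1 : ℝ), (c.2.1 : ℝ)) ∨ p = ((c.1 : ℝ), (c.2.2 : ℝ))}

theorem hull_aux (C : List Con) : ∀ (L : List Con) (a : Con), chkUp C (a :: L) = true →
    Reg C ∩ {x | (a.1 : ℝ) < x.1} ⊆ convexHull ℝ (corners (a :: L)) := by
  intro L
  induction L with
  | nil =>
    intro a h
    have hmem : ((1, 0, a.1) : Con) ∈ C := by
      unfold chkUp at h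
      exact of_decide_eq_true h
    rintro x ⟨hx, hx'⟩
    exfalso
    have := hx _ hmem
    push_cast at this
    simp only [mem_ofPred_eq] at hx'
    linarith
  | cons b L ih =>
    intro a h
    obtain ⟨⟨h1, h2, h3⟩, ⟨hu, hl⟩, h4⟩ := chkUp_cons h
    have hr1 : (a.1 : ℝ) < (b.1 : ℝ) := by exact_mod_cast h1
    rintro x ⟨hx, hx'⟩
    rcases le_or_gt x.1 (b.1 : ℝ) with h5 | h5
    · obtain ⟨h6, h7⟩ := slab_bounds hr1 hu hl hx
      refine mem_of_corners (convex_convexHull ℝ _) hr1 ?_ ?_ ?_ ?_ (le_of_lt hx') h5 h6 h7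
      · exact subset_convexHull ℝ _ ⟨a, by simp, Or.inl rfl⟩
      · exact subset_convexHull ℝ _ ⟨b, by simp, Or.inl rfl⟩
      · exact subset_convexHull ℝ _ ⟨a, by simp, Or.inr rfl⟩
      · exact subset_convexHull ℝ _ ⟨b, by simp, Or.inr rfl⟩
    · refine convexHull_mono ?_ (ih b h4 ⟨hx, h5⟩)
      rintro p ⟨c, hc, hp⟩
      exact ⟨c, List.mem_cons_of_mem _ hc, hp⟩

theorem hull (C : List Con) (a b : Con) (L : List Con) (h : chkUp C (a :: b :: L) = true)
    (h0 : ((-1, 0, -a.1) : Con) ∈ C) :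
    Reg C ⊆ convexHull ℝ (corners (a :: b :: L)) := by
  obtain ⟨⟨h1, h2, h3⟩, ⟨hu, hl⟩, h4⟩ := chkUp_cons h
  have hr1 : (a.1 : ℝ) < (b.1 : ℝ) := by exact_mod_cast h1
  intro x hx
  have h5 := hx _ h0
  push_cast at h5
  rcases le_or_gt x.1 (b.1 : ℝ) with h6 | h6
  · obtain ⟨h7, h8⟩ := slab_bounds hr1 hu hl hx
    refine mem_of_corners (convex_convexHull ℝ _) hr1 ?_ ?_ ?_ ?_ (by linarith) h6 h7 h8
    · exact subset_convexHull ℝ _ ⟨a, by simp, Or.inl rfl⟩
    · exact subset_convexHull ℝ _ ⟨b, by simp, Or.inl rfl⟩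
    · exact subset_convexHull ℝ _ ⟨a, by simp, Or.inr rfl⟩
    · exact subset_convexHull ℝ _ ⟨b, by simp, Or.inr rfl⟩
  · exact hull_aux C (b :: L) a h ⟨hx, by simp only [mem_ofPred_eq]; linarith⟩

end Pool.Agent.MP79dd7e
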