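import Pool.Agent.MP79dd7e.Square

set_option autoImplicit false

namespace Pool.Agent.MP79dd7e

open MeasureTheory Set Filter Topology

/-- The square with its four corners cut. -/
def B (a b c d : ℕ × ℝ) : Set (ℝ × ℝ) :=
  {p | (1 - p.1, 1 - p.2) ∈ W a ∧ (1 - p.2, 1 + p.1) ∈ W b ∧ (1 + p.1, 1 + p.2) ∈ W c ∧
    (1 + p.2, 1 - p.1) ∈ W d}

/-- Its vertices. -/
def V (a b c d : ℕ × ℝ) : Set (ℝ × ℝ) :=
  {p | (1 - p.1, 1 - p.2) ∈ F a ∨ (1 - p.2, 1 + p.1) ∈ F b ∨ (1 + p.1, 1 + p.2) ∈ F c ∨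
    (1 + p.2, 1 - p.1) ∈ F d}

/-- The quarter turn. -/
def rot (p : ℝ × ℝ) : ℝ × ℝ := (-p.2, p.1)

/-- Admissible data for a corner. -/
def Adm (a : ℕ × ℝ) : Prop := 0 < a.1 ∧ 0 < a.2 ∧ a.2 * (a.1 : ℝ) ^ 2 ≤ 1 / 2

theorem rot_B (a b c d : ℕ × ℝ) : rot ⁻¹' (B a b c d) = B b c d a := by
  ext p
  simp only [rot, B, mem_preimage, mem_ofPred_eq]
  have e1 : 1 - -p.2 = 1 + p.2 := by ring
  have e2 : 1 + -p.2 = 1 - p.2 := by ring
  rw [e1, e2]
  tauto

theorem rot_V (a b c d : ℕ × ℝ) : rot ⁻¹' (V a b c d) = V b c d a := by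
  ext p
  simp only [rot, V, mem_preimage, mem_ofPred_eq]
  have e1 : 1 - -p.2 = 1 + p.2 := by ring
  have e2 : 1 + -p.2 = 1 - p.2 := by ring
  rw [e1, e2]
  tauto

/-- The quarter turn as a linear equivalence. -/
def rotL : (ℝ × ℝ) ≃ₗ[ℝ] (ℝ × ℝ) where
  toFun := rot
  invFun := fun p => (p.2, -p.1)
  left_inv := by intro p; simp [rot]
  right_inv := by intro p; simp [rot]
  map_add' := by
    intro p q
    ext
    · simp only [rot, Prod.snd_add, Prod.fst_add, neg_add]
    · simp only [rot, Prod.snd_add, Prod.fst_add]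
  map_smul' := by
    intro c p
    ext
    · simp only [rot, Prod.smul_snd, smul_eq_mul, RingHom.id_apply, Prod.smul_fst, mul_neg]
    · simp only [rot, Prod.smul_snd, smul_eq_mul, RingHom.id_apply, Prod.smul_fst]

theorem rotL_apply (p : ℝ × ℝ) : rotL p = rot p := rfl

theorem rot_surj (p : ℝ × ℝ) : rot (p.2, -p.1) = p := by simp [rot]

theorem rot_image_V (a b c d : ℕ × ℝ) : rotL '' (V b c d a) = V a b c d := by
  rw [← rot_V a b c d]
  exact image_preimage_eq _ rotL.surjective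

theorem rot_image_B (a b c d : ℕ × ℝ) : rotL '' (B b c d a) = B a b c d := by
  rw [← rot_B a b c d]
  exact image_preimage_eq _ rotL.surjective

theorem mem_hull_rot {a b c d : ℕ × ℝ} {p : ℝ × ℝ} (h : p ∈ convexHull ℝ (V b c d a)) :
    rot p ∈ convexHull ℝ (V a b c d) := by
  rw [← rot_image_V a b c d]
  have := (rotL : (ℝ × ℝ) →ₗ[ℝ] (ℝ × ℝ)).image_convexHull (V b c d a)
  have h2 : (rotL : (ℝ × ℝ) →ₗ[ℝ] (ℝ × ℝ)) '' (V b c d a) = rotL '' (V b c d a) := rfl
  rw [← h2, ← this]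
  exact ⟨p, h, rfl⟩

theorem convex_B (a b c d : ℕ × ℝ) : Convex ℝ (B a b c d) := by
  intro x hx y hy s t hs ht hst
  obtain ⟨x1, x2, x3, x4⟩ := hx
  obtain ⟨y1, y2, y3, y4⟩ := hy
  refine ⟨?_, ?_, ?_, ?_⟩
  · convert convex_W a x1 y1 hs ht hst using 1
    ext
    · simp only [Prod.fst_add, Prod.smul_fst, smul_eq_mul]; linear_combination (-1 : ℝ) * hst
    · simp only [Prod.fst_add, Prod.snd_add, Prod.smul_snd, smul_eq_mul]
      linear_combination (-1 : ℝ) * hst
  · convert convex_W b x2 y2 hs ht hst using 1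
    ext
    · simp only [Prod.fst_add, Prod.snd_add, Prod.smul_fst, Prod.smul_snd, smul_eq_mul]
      linear_combination (-1 : ℝ) * hst
    · simp only [Prod.fst_add, Prod.snd_add, Prod.smul_fst, Prod.smul_snd, smul_eq_mul]
      linear_combination (-1 : ℝ) * hst
  · convert convex_W c x3 y3 hs ht hst using 1
    ext
    · simp only [Prod.fst_add, Prod.smul_fst, smul_eq_mul]; linear_combination (-1 : ℝ) * hst
    · simp only [Prod.fst_add, Prod.snd_add, Prod.smul_snd, smul_eq_mul]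
      linear_combination (-1 : ℝ) * hst
  · convert convex_W d x4 y4 hs ht hst using 1
    ext
    · simp only [Prod.fst_add, Prod.snd_add, Prod.smul_fst, Prod.smul_snd, smul_eq_mul]
      linear_combination (-1 : ℝ) * hst
    · simp only [Prod.fst_add, Prod.snd_add, Prod.smul_fst, Prod.smul_snd, smul_eq_mul]
      linear_combination (-1 : ℝ) * hst

/-- The vertices at the first corner are in `B`. -/
theorem first_mem_B {a b c d : ℕ × ℝ} (ha : Adm a) (hb : Adm b) (hc : Adm c) (hd : Adm d)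
    {p : ℝ × ℝ} (hp : (1 - p.1, 1 - p.2) ∈ F a) : p ∈ B a b c d := by
  obtain ⟨i, hi, hq⟩ := hp
  have hi' : (i : ℝ) ≤ a.1 := by exact_mod_cast hi
  have h1 : 1 - p.1 = a.2 * (i : ℝ) ^ 2 := congrArg Prod.fst hq
  have h2 : 1 - p.2 = a.2 * ((a.1 : ℝ) - i) ^ 2 := congrArg Prod.snd hq
  obtain ⟨_, ha2, ha3⟩ := ha
  have b1 : a.2 * (i : ℝ) ^ 2 ≤ 1 / 2 := by
    refine le_trans ?_ ha3
    gcongr
  have b2 : a.2 * ((a.1 : ℝ) - i) ^ 2 ≤ 1 / 2 := by
    refine le_trans ?_ ha3
    have : ((a.1 : ℝ) - i) ^ 2 ≤ (a.1 : ℝ) ^ 2 := by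
      have : (0 : ℝ) ≤ i := by positivity
      nlinarith
    gcongr
  have b3 : 0 ≤ a.2 * (i : ℝ) ^ 2 := by positivity
  have b4 : 0 ≤ a.2 * ((a.1 : ℝ) - i) ^ 2 := by positivity
  refine ⟨F_subset_W ha2 ⟨i, hi, hq⟩, ?_, ?_, ?_⟩
  · apply W_of_right hb.2.1
    · show _ ≤ 1 + p.1
      linarith [hb.2.2]
    · show 0 ≤ 1 - p.2
      linarith
  · apply W_of_right hc.2.1
    · show _ ≤ 1 + p.2
      linarith [hc.2.2]
    · show 0 ≤ 1 + p.1
      linarith
  · apply W_of_left hd.2.1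
    · show _ ≤ 1 + p.2
      linarith [hd.2.2]
    · show 0 ≤ 1 - p.1
      linarith

theorem V_subset_B {a b c d : ℕ × ℝ} (ha : Adm a) (hb : Adm b) (hc : Adm c) (hd : Adm d) :
    V a b c d ⊆ B a b c d := by
  rintro p (h | h | h | h)
  · exact first_mem_B ha hb hc hd h
  · -- `p = rot q`
    have h1 : ((p.2, -p.1) : ℝ × ℝ) ∈ B b c d a := by
      apply first_mem_B hb hc hd ha
      simpa using h
    rw [← rot_B a b c d] at h1
    simpa [rot] using h1
  · have h1 : ((-p.1, -p.2) : ℝ × ℝ) ∈ B c d a b := by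
      apply first_mem_B hc hd ha hb
      simpa using h
    rw [← rot_B b c d a, ← rot_B a b c d] at h1
    simpa [rot] using h1
  · have h1 : ((-p.2, p.1) : ℝ × ℝ) ∈ B d a b c := by
      apply first_mem_B hd ha hb hc
      simpa using h
    rw [← rot_B c d a b, ← rot_B b c d a, ← rot_B a b c d] at h1
    simpa [rot] using h1

/-- The segment from the origin to the midpoint of the right side is in the hull. -/
theorem axis_mem {a b c d : ℕ × ℝ} (ha : Adm a) (hb : Adm b) (hc : Adm c) (hd : Adm d)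
    : ((1, 0) : ℝ × ℝ) ∈ convexHull ℝ (V a b c d) := by
  have h1 : ((1, 1 - a.2 * (a.1 : ℝ) ^ 2) : ℝ × ℝ) ∈ V a b c d := by
    left
    refine ⟨0, Nat.zero_le _, ?_⟩
    unfold P
    ext <;> simp
  have h2 : ((1, -(1 - d.2 * (d.1 : ℝ) ^ 2)) : ℝ × ℝ) ∈ V a b c d := by
    right; right; right
    refine ⟨d.1, le_rfl, ?_⟩
    unfold P
    ext <;> simp
  have h1' := subset_convexHull ℝ _ h1
  have h2' := subset_convexHull ℝ _ h2
  have ha3 := ha.2.2
  have hd3 := hd.2.2
  generalize a.2 * (a.1 : ℝ) ^ 2 = x at *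
  generalize d.2 * (d.1 : ℝ) ^ 2 = y at *
  have hs : 0 < (1 - x) + (1 - y) := by linarith
  have := (convex_convexHull ℝ (V a b c d)) h1' h2' (a := (1 - y) / ((1 - x) + (1 - y)))
    (b := (1 - x) / ((1 - x) + (1 - y))) (div_nonneg (by linarith) hs.le)
    (div_nonneg (by linarith) hs.le) (by field_simp; ring)
  convert this using 1
  ext
  · simp only [Prod.fst_add, Prod.smul_fst, smul_eq_mul]; field_simp; ring
  · simp only [Prod.snd_add, Prod.smul_snd, smul_eq_mul]; field_simp; ring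

theorem axis_mem' {a b c d : ℕ × ℝ} (ha : Adm a) (hb : Adm b) (hc : Adm c) (hd : Adm d)
    : ((0, 1) : ℝ × ℝ) ∈ convexHull ℝ (V a b c d) := by
  have := mem_hull_rot (axis_mem hb hc hd ha)
  simpa [rot] using this

theorem axis_mem'' {a b c d : ℕ × ℝ} (ha : Adm a) (hb : Adm b) (hc : Adm c) (hd : Adm d)
    : ((-1, 0) : ℝ × ℝ) ∈ convexHull ℝ (V a b c d) := by
  have := mem_hull_rot (axis_mem' hb hc hd ha)
  simpa [rot] using this

theorem zero_mem {a b c d : ℕ × ℝ} (ha : Adm a) (hb : Adm b) (hc : Adm c) (hd : Adm d)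
    : ((0, 0) : ℝ × ℝ) ∈ convexHull ℝ (V a b c d) := by
  have := (convex_convexHull ℝ (V a b c d)) (axis_mem ha hb hc hd) (axis_mem'' ha hb hc hd)
    (a := 1 / 2) (b := 1 / 2) (by norm_num) (by norm_num) (by norm_num)
  convert this using 1
  ext
  · simp
  · simp

theorem hull_first {a b c d : ℕ × ℝ} (ha : Adm a) (hb : Adm b) (hc : Adm c) (hd : Adm d)
    {p : ℝ × ℝ} (hp : p ∈ B a b c d) (h1 : 0 ≤ p.1) (h2 : 0 ≤ p.2) :
    p ∈ convexHull ℝ (V a b c d) := by
  obtain ⟨w, hw, hw1, hw2⟩ := dominates hp.1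
  have hS := convex_convexHull ℝ (V a b c d)
  -- the point `v = (1,1) - w`
  have hv : ((1 - w.1, 1 - w.2) : ℝ × ℝ) ∈ convexHull ℝ (V a b c d) := by
    have : (AffineMap.const ℝ (ℝ × ℝ) ((1, 1) : ℝ × ℝ) - AffineMap.id ℝ (ℝ × ℝ)) ''
        (convexHull ℝ (F a)) ⊆ convexHull ℝ (V a b c d) := by
      rw [AffineMap.image_convexHull]
      apply convexHull_mono
      rintro _ ⟨q, hq, rfl⟩
      left
      simpa using hq
    have h3 : ((1, 1) - w : ℝ × ℝ) ∈ convexHull ℝ (V a b c d) := by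
      simpa using this ⟨w, hw, rfl⟩
    exact h3
  have hwn : 0 ≤ w.1 ∧ 0 ≤ w.2 := by
    have : w ∈ W a := convexHull_min (F_subset_W ha.2.1) (convex_W a) hw
    exact ⟨this.1, this.2.1⟩
  have hp1 : p.1 ≤ 1 - w.1 := by
    have : w.1 ≤ 1 - p.1 := hw1
    linarith
  have hp2 : p.2 ≤ 1 - w.2 := by
    have : w.2 ≤ 1 - p.2 := hw2
    linarith
  have h0 := zero_mem ha hb hc hd
  have hx : ((1 - w.1, 0) : ℝ × ℝ) ∈ convexHull ℝ (V a b c d) := by
    have := hS h0 (axis_mem ha hb hc hd) (a := w.1) (b := 1 - w.1) hwn.1 (by linarith) (by ring)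
    convert this using 1
    ext <;> simp
  have hy : ((0, 1 - w.2) : ℝ × ℝ) ∈ convexHull ℝ (V a b c d) := by
    have := hS h0 (axis_mem' ha hb hc hd) (a := w.2) (b := 1 - w.2) hwn.2 (by linarith) (by ring)
    convert this using 1
    ext <;> simp
  -- bottom point and top point with abscissa `p.1`
  have hbot : ((p.1, 0) : ℝ × ℝ) ∈ convexHull ℝ (V a b c d) := by
    rcases eq_or_lt_of_le (h1.trans hp1) with h | h
    · have : p.1 = 0 := by linarith
      rw [this]; exact h0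
    · have := hS h0 hx (a := 1 - p.1 / (1 - w.1)) (b := p.1 / (1 - w.1))
        (by rw [sub_nonneg, div_le_one h]; exact hp1) (div_nonneg h1 h.le) (by ring)
      convert this using 1
      ext
      · simp only [Prod.fst_add, Prod.smul_fst, smul_eq_mul]; field_simp; ring
      · simp
  have htop : ((p.1, 1 - w.2) : ℝ × ℝ) ∈ convexHull ℝ (V a b c d) := by
    rcases eq_or_lt_of_le (h1.trans hp1) with h | h
    · have : p.1 = 0 := by linarith
      rw [this]; exact hy
    · have := hS hy hv (a := 1 - p.1 / (1 - w.1)) (b := p.1 / (1 - w.1))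
        (by rw [sub_nonneg, div_le_one h]; exact hp1) (div_nonneg h1 h.le) (by ring)
      convert this using 1
      ext
      · simp only [Prod.fst_add, Prod.smul_fst, smul_eq_mul]; field_simp; ring
      · simp only [Prod.snd_add, Prod.smul_snd, smul_eq_mul]; ring
  rcases eq_or_lt_of_le (h2.trans hp2) with h | h
  · have h3 : p.2 = 0 := by linarith
    have : p = (p.1, 0) := by ext <;> simp [h3]
    rw [this]; exact hbot
  · have := hS hbot htop (a := 1 - p.2 / (1 - w.2)) (b := p.2 / (1 - w.2))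
      (by rw [sub_nonneg, div_le_one h]; exact hp2) (div_nonneg h2 h.le) (by ring)
    convert this using 1
    ext
    · simp only [Prod.fst_add, Prod.smul_fst, smul_eq_mul]; ring
    · simp only [Prod.snd_add, Prod.smul_snd, smul_eq_mul]; field_simp; ring

theorem B_eq_hull {a b c d : ℕ × ℝ} (ha : Adm a) (hb : Adm b) (hc : Adm c) (hd : Adm d) :
    B a b c d = convexHull ℝ (V a b c d) := by
  apply Subset.antisymm
  · intro p hp
    rcases le_total 0 p.1 with h1 | h1
    · rcases le_total 0 p.2 with h2 | h2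
      · exact hull_first ha hb hc hd hp h1 h2
      · -- fourth quadrant: rotate by a quarter turn three times backwards
        have h3 : ((-p.2, p.1) : ℝ × ℝ) ∈ B d a b c := by
          rw [← rot_B c d a b, ← rot_B b c d a, ← rot_B a b c d]
          simpa [rot] using hp
        have h4 := hull_first hd ha hb hc h3 (by show 0 ≤ -p.2; linarith) h1
        have h5 := mem_hull_rot (mem_hull_rot (mem_hull_rot h4))
        simpa [rot] using h5
    · rcases le_total 0 p.2 with h2 | h2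
      · have h3 : ((p.2, -p.1) : ℝ × ℝ) ∈ B b c d a := by
          rw [← rot_B a b c d]
          simpa [rot] using hp
        have h4 := hull_first hb hc hd ha h3 h2 (by show 0 ≤ -p.1; linarith)
        have h5 := mem_hull_rot h4
        simpa [rot] using h5
      · have h3 : ((-p.1, -p.2) : ℝ × ℝ) ∈ B c d a b := by
          rw [← rot_B b c d a, ← rot_B a b c d]
          simpa [rot] using hp
        have h4 := hull_first hc hd ha hb h3 (by show 0 ≤ -p.1; linarith)
          (by show 0 ≤ -p.2; linarith)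
        have h5 := mem_hull_rot (mem_hull_rot h4)
        simpa [rot] using h5
  · exact convexHull_min (V_subset_B ha hb hc hd) (convex_B a b c d)

end Pool.Agent.MP79dd7e
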