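import Pool.Agent.MP79dd7e.Slope

set_option autoImplicit false

namespace Pool.Agent.MP79dd7e

open MeasureTheory Set Filter Topology

variable {R : Set (ℝ × ℝ)}

theorem pairOf_inj {m s t m' s' t' : ℝ} (hm : m ∈ Ioo (-1 : ℝ) 1) (hm' : m' ∈ Ioo (-1 : ℝ) 1)
    (h : pairOf m s t = pairOf m' s' t') : m = m' := by
  unfold pairOf at h
  rw [Sym2.eq_iff] at h
  rcases h with ⟨h1, _⟩ | ⟨h1, _⟩
  · have e1 : ((0, s) : ℝ × ℝ) ∈ {x | fA m' x = s'} := by
      rw [← h1]; simp [fA]
    have e2 : ((1, s + m) : ℝ × ℝ) ∈ {x | fA m' x = s'} := by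
      rw [← h1]; simp [fA]
    simp only [fA, mem_ofPred_eq] at e1 e2
    linarith
  · exfalso
    have e1 : ((0, s) : ℝ × ℝ) ∈ {x | fB m' x = t'} := by
      rw [← h1]; simp [fA]
    have e2 : ((1, s + m) : ℝ × ℝ) ∈ {x | fB m' x = t'} := by
      rw [← h1]; simp [fA]
    simp only [fB, mem_ofPred_eq] at e1 e2
    have e3 : m' * m = -1 := by linarith
    have h3 : |m' * m| < 1 := by
      rw [abs_mul]
      have a1 : |m| < 1 := abs_lt.2 hm
      have a2 : |m'| < 1 := abs_lt.2 hm'
      nlinarith [abs_nonneg m, abs_nonneg m']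
    rw [e3] at h3
    norm_num at h3

theorem encard_slopes_le {M : Set ℝ} (hM : M ⊆ Ioo (-1 : ℝ) 1) (h : ∀ m ∈ M, HasSlope R m) :
    M.encard ≤ numQuadrisections R := by
  choose! s t hst using h
  have hinj : InjOn (fun m => pairOf m (s m) (t m)) M := by
    intro m hm m' hm' he
    exact pairOf_inj (hM hm) (hM hm') he
  rw [← hinj.encard_image]
  apply encard_le_encard
  rintro _ ⟨m, hm, rfl⟩
  exact hst m hm

/-- Reflection in the first axis. -/
def refl (x : ℝ × ℝ) : ℝ × ℝ := (x.1, -x.2)

theorem refl_refl (x : ℝ × ℝ) : refl (refl x) = x := by simp [refl]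

theorem continuous_refl : Continuous refl := by unfold refl; fun_prop

theorem mp_refl : MeasurePreserving refl (volume : Measure (ℝ × ℝ)) volume := by
  have := (MeasurePreserving.id (volume : Measure ℝ)).prod
    (Measure.measurePreserving_neg (volume : Measure ℝ))
  exact this

/-- Reflection as a homeomorphism. -/
def reflHomeo : (ℝ × ℝ) ≃ₜ (ℝ × ℝ) where
  toFun := refl
  invFun := refl
  left_inv := refl_refl
  right_inv := refl_refl
  continuous_toFun := continuous_refl
  continuous_invFun := continuous_refl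

theorem dot_refl (u x p : ℝ × ℝ) : dot u (refl x - p) = dot (refl u) (x - refl p) := by
  simp only [dot, refl, Prod.fst_sub, Prod.snd_sub]; ring

theorem refl_neg (u : ℝ × ℝ) : refl (-u) = - refl u := by
  ext <;> simp [refl]

theorem preimage_quadrant (p u w : ℝ × ℝ) :
    refl ⁻¹' (quadrant p u w) = quadrant (refl p) (refl u) (refl w) := by
  ext x
  simp only [quadrant, mem_preimage, mem_ofPred_eq, dot_refl]

theorem preimage_line (p u : ℝ × ℝ) : refl ⁻¹' (line p u) = line (refl p) (refl u) := by
  ext x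
  simp only [line, mem_preimage, mem_ofPred_eq, dot_refl]

theorem isQuadrisection_refl (hR : refl ⁻¹' R = R) (hm : MeasurableSet R) {A B : Set (ℝ × ℝ)}
    (h : IsQuadrisection R s(A, B)) : IsQuadrisection R s(refl ⁻¹' A, refl ⁻¹' B) := by
  obtain ⟨p, u, w, hu, hw, huw, hp, hq, h1, h2, h3, h4⟩ := h
  have vol : ∀ p u w : ℝ × ℝ, volume (R ∩ quadrant (refl p) (refl u) (refl w)) =
      volume (R ∩ quadrant p u w) := by
    intro p u w
    rw [← preimage_quadrant]
    conv_lhs => rw [← hR]
    rw [← preimage_inter]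
    apply mp_refl.measure_preimage
    apply MeasurableSet.nullMeasurableSet
    apply hm.inter
    have : quadrant p u w = {x | 0 ≤ dot u (x - p)} ∩ {x | 0 ≤ dot w (x - p)} := rfl
    rw [this]
    apply MeasurableSet.inter
    · apply measurableSet_le measurable_const
      unfold dot; fun_prop
    · apply measurableSet_le measurable_const
      unfold dot; fun_prop
  refine ⟨refl p, refl u, refl w, ?_, ?_, ?_, ?_, ?_, ?_, ?_, ?_, ?_⟩
  · intro h0; apply hu
    have := congrArg refl h0
    rw [refl_refl] at this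
    rw [this]; simp [refl]
  · intro h0; apply hw
    have := congrArg refl h0
    rw [refl_refl] at this
    rw [this]; simp [refl]
  · rw [← huw]; simp [dot, refl]
  · have h5 : reflHomeo ⁻¹' (interior R) = interior (reflHomeo ⁻¹' R) :=
      reflHomeo.preimage_interior R
    have h6 : reflHomeo ⁻¹' R = R := hR
    rw [h6] at h5
    rw [← h5]
    show refl (refl p) ∈ interior R
    rw [refl_refl]; exact hp
  · rw [Sym2.eq_iff] at hq
    rcases hq with ⟨hA, hB⟩ | ⟨hA, hB⟩
    · rw [hA, hB, preimage_line, preimage_line]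
    · rw [hA, hB, preimage_line, preimage_line, Sym2.eq_swap]
  · rw [vol]; exact h1
  · rw [← refl_neg, vol]; exact h2
  · rw [← refl_neg, vol]; exact h3
  · rw [← refl_neg, ← refl_neg, vol]; exact h4

theorem HasSlope.neg (hR : refl ⁻¹' R = R) (hm : MeasurableSet R) {m : ℝ} (h : HasSlope R m) :
    HasSlope R (-m) := by
  obtain ⟨s, t, hst⟩ := h
  have := isQuadrisection_refl hR hm hst
  refine ⟨-s, t, ?_⟩
  convert this using 2
  unfold pairOf
  have e1 : refl ⁻¹' {x | fA m x = s} = {x | fA (-m) x = -s} := by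
    ext x
    simp only [refl, fA, mem_preimage, mem_ofPred_eq]
    constructor <;> intro h <;> linarith
  have e2 : refl ⁻¹' {x | fB m x = t} = {x | fB (-m) x = t} := by
    ext x
    simp only [refl, fB, mem_preimage, mem_ofPred_eq]
    constructor <;> intro h <;> linarith
  rw [e1, e2]

end Pool.Agent.MP79dd7e
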