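import Pool.Agent.MP79dd7e.Defs

set_option autoImplicit false

namespace Pool.Agent.MP79dd7e

open MeasureTheory Set Filter Topology

/-- Height above the line of slope `m`. -/
def fA (m : ℝ) (x : ℝ × ℝ) : ℝ := x.2 - m * x.1

/-- The orthogonal coordinate. -/
def fB (m : ℝ) (x : ℝ × ℝ) : ℝ := x.1 + m * x.2

theorem null_line (a b c : ℝ) (h : a ≠ 0 ∨ b ≠ 0) :
    volume {x : ℝ × ℝ | a * x.1 + b * x.2 = c} = 0 := by
  have hm : MeasurableSet {x : ℝ × ℝ | a * x.1 + b * x.2 = c} :=
    measurableSet_eq_fun (by fun_prop) (by fun_prop)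
  rw [Measure.volume_eq_prod, Measure.measure_prod_null hm]
  by_cases hb : b = 0
  · have ha : a ≠ 0 := by
      rcases h with h | h
      · exact h
      · exact absurd hb h
    have h1 : ∀ᵐ x : ℝ, x ≠ c / a := by
      rw [ae_iff]; simp
    filter_upwards [h1] with x hx
    have h2 : Prod.mk x ⁻¹' {x : ℝ × ℝ | a * x.1 + b * x.2 = c} = ∅ := by
      ext y
      simp only [mem_preimage, mem_ofPred_eq, mem_empty_iff_false, iff_false]
      intro h3
      apply hx
      rw [hb] at h3
      field_simp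
      linarith
    rw [h2]; simp
  · filter_upwards with x
    have h2 : Prod.mk x ⁻¹' {x : ℝ × ℝ | a * x.1 + b * x.2 = c} ⊆ {(c - a * x) / b} := by
      intro y hy
      simp only [mem_preimage, mem_ofPred_eq] at hy
      rw [mem_singleton_iff]
      field_simp
      linarith
    exact measure_mono_null h2 (by simp)

theorem null_fA (m s : ℝ) : volume {x : ℝ × ℝ | fA m x = s} = 0 := by
  have h0 := null_line (-m) 1 s (Or.inr one_ne_zero)
  have h1 : {x : ℝ × ℝ | fA m x = s} = {x : ℝ × ℝ | -m * x.1 + 1 * x.2 = s} := by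
    ext x
    simp only [fA, mem_ofPred_eq]
    constructor <;> intro h <;> linarith
  rw [h1]; exact h0

theorem null_fB (m t : ℝ) : volume {x : ℝ × ℝ | fB m x = t} = 0 := by
  have h0 := null_line 1 m t (Or.inl one_ne_zero)
  have h1 : {x : ℝ × ℝ | fB m x = t} = {x : ℝ × ℝ | 1 * x.1 + m * x.2 = t} := by
    ext x
    simp only [fB, mem_ofPred_eq]
    constructor <;> intro h <;> linarith
  rw [h1]; exact h0

theorem continuous_fA : Continuous (fun q : ℝ × (ℝ × ℝ) => fA q.1 q.2) := by
  unfold fA; fun_prop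

theorem continuous_fB : Continuous (fun q : ℝ × (ℝ × ℝ) => fB q.1 q.2) := by
  unfold fB; fun_prop

theorem continuous_fA' (m : ℝ) : Continuous (fA m) := by
  unfold fA; fun_prop

theorem continuous_fB' (m : ℝ) : Continuous (fB m) := by
  unfold fB; fun_prop

/-- If two continuous functions differ at a point then the truth value of the weak inequality
is locally constant. -/
theorem eventually_le_iff {X : Type*} [TopologicalSpace X] {f g : X → ℝ} {x₀ : X}
    (hf : ContinuousAt f x₀) (hg : ContinuousAt g x₀) (h : f x₀ ≠ g x₀) :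
    ∀ᶠ x in 𝓝 x₀, (f x ≤ g x ↔ f x₀ ≤ g x₀) := by
  rcases lt_or_gt_of_ne h with h1 | h1
  · filter_upwards [hf.eventually_lt hg h1] with x hx
    exact ⟨fun _ => h1.le, fun _ => hx.le⟩
  · filter_upwards [hg.eventually_lt hf h1] with x hx
    exact ⟨fun h2 => absurd h2 (not_le.2 hx), fun h2 => absurd h2 (not_le.2 h1)⟩

variable {R : Set (ℝ × ℝ)}

/-- Area cut off by one line. -/
noncomputable def cutA (R : Set (ℝ × ℝ)) (m s : ℝ) : ℝ := volume.real (R ∩ {x | fA m x ≤ s})

/-- Area cut off by one line, other direction. -/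
noncomputable def cutB (R : Set (ℝ × ℝ)) (m t : ℝ) : ℝ := volume.real (R ∩ {x | fB m x ≤ t})

/-- Area of a quadrant piece. -/
noncomputable def quad (R : Set (ℝ × ℝ)) (m s t : ℝ) : ℝ :=
  volume.real (R ∩ {x | fA m x ≤ s ∧ fB m x ≤ t})

theorem continuous_cutA (hc : IsCompact R) :
    Continuous (fun q : ℝ × ℝ => cutA R q.1 q.2) := by
  rw [continuous_iff_continuousAt]
  intro q
  have hR : volume R ≠ ⊤ := hc.measure_lt_top.ne
  have hms : ∀ q : ℝ × ℝ, MeasurableSet (R ∩ {x | fA q.1 x ≤ q.2}) := fun q =>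
    hc.measurableSet.inter (measurableSet_le (continuous_fA' q.1).measurable measurable_const)
  have h1 : Tendsto (fun q' : ℝ × ℝ => volume (R ∩ {x | fA q'.1 x ≤ q'.2})) (𝓝 q)
      (𝓝 (volume (R ∩ {x | fA q.1 x ≤ q.2}))) := by
    apply tendsto_measure_of_ae_tendsto_indicator (𝓝 q) (hms q) (fun i => hms i)
      hc.measurableSet hR (Eventually.of_forall fun i => inter_subset_left)
    have hae : ∀ᵐ x : ℝ × ℝ, fA q.1 x ≠ q.2 := by
      rw [ae_iff]; simpa using null_fA q.1 q.2
    filter_upwards [hae] with x hx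
    have h2 := eventually_le_iff (f := fun q' : ℝ × ℝ => fA q'.1 x) (g := fun q' => q'.2)
      (x₀ := q) (by unfold fA; fun_prop) (by fun_prop) hx
    filter_upwards [h2] with q' hq'
    simp only [mem_inter_iff, mem_ofPred_eq, hq']
  exact (ENNReal.tendsto_toReal (measure_ne_top_of_subset inter_subset_left hR)).comp h1

theorem continuous_cutB (hc : IsCompact R) :
    Continuous (fun q : ℝ × ℝ => cutB R q.1 q.2) := by
  rw [continuous_iff_continuousAt]
  intro q
  have hR : volume R ≠ ⊤ := hc.measure_lt_top.ne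
  have hms : ∀ q : ℝ × ℝ, MeasurableSet (R ∩ {x | fB q.1 x ≤ q.2}) := fun q =>
    hc.measurableSet.inter (measurableSet_le (continuous_fB' q.1).measurable measurable_const)
  have h1 : Tendsto (fun q' : ℝ × ℝ => volume (R ∩ {x | fB q'.1 x ≤ q'.2})) (𝓝 q)
      (𝓝 (volume (R ∩ {x | fB q.1 x ≤ q.2}))) := by
    apply tendsto_measure_of_ae_tendsto_indicator (𝓝 q) (hms q) (fun i => hms i)
      hc.measurableSet hR (Eventually.of_forall fun i => inter_subset_left)
    have hae : ∀ᵐ x : ℝ × ℝ, fB q.1 x ≠ q.2 := by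
      rw [ae_iff]; simpa using null_fB q.1 q.2
    filter_upwards [hae] with x hx
    have h2 := eventually_le_iff (f := fun q' : ℝ × ℝ => fB q'.1 x) (g := fun q' => q'.2)
      (x₀ := q) (by unfold fB; fun_prop) (by fun_prop) hx
    filter_upwards [h2] with q' hq'
    simp only [mem_inter_iff, mem_ofPred_eq, hq']
  exact (ENNReal.tendsto_toReal (measure_ne_top_of_subset inter_subset_left hR)).comp h1

theorem continuous_quad (hc : IsCompact R) :
    Continuous (fun q : ℝ × ℝ × ℝ => quad R q.1 q.2.1 q.2.2) := by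
  rw [continuous_iff_continuousAt]
  intro q
  have hR : volume R ≠ ⊤ := hc.measure_lt_top.ne
  have hms : ∀ q : ℝ × ℝ × ℝ, MeasurableSet (R ∩ {x | fA q.1 x ≤ q.2.1 ∧ fB q.1 x ≤ q.2.2}) :=
    fun q => hc.measurableSet.inter
      ((measurableSet_le (continuous_fA' q.1).measurable measurable_const).inter
        (measurableSet_le (continuous_fB' q.1).measurable measurable_const))
  have h1 : Tendsto (fun q' : ℝ × ℝ × ℝ =>
      volume (R ∩ {x | fA q'.1 x ≤ q'.2.1 ∧ fB q'.1 x ≤ q'.2.2})) (𝓝 q)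
      (𝓝 (volume (R ∩ {x | fA q.1 x ≤ q.2.1 ∧ fB q.1 x ≤ q.2.2}))) := by
    apply tendsto_measure_of_ae_tendsto_indicator (𝓝 q) (hms q) (fun i => hms i)
      hc.measurableSet hR (Eventually.of_forall fun i => inter_subset_left)
    have hae : ∀ᵐ x : ℝ × ℝ, fA q.1 x ≠ q.2.1 := by
      rw [ae_iff]; simpa using null_fA q.1 q.2.1
    have hae' : ∀ᵐ x : ℝ × ℝ, fB q.1 x ≠ q.2.2 := by
      rw [ae_iff]; simpa using null_fB q.1 q.2.2
    filter_upwards [hae, hae'] with x hx hx'
    have h2 := eventually_le_iff (f := fun q' : ℝ × ℝ × ℝ => fA q'.1 x) (g := fun q' => q'.2.1)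
      (x₀ := q) (by unfold fA; fun_prop) (by fun_prop) hx
    have h3 := eventually_le_iff (f := fun q' : ℝ × ℝ × ℝ => fB q'.1 x) (g := fun q' => q'.2.2)
      (x₀ := q) (by unfold fB; fun_prop) (by fun_prop) hx'
    filter_upwards [h2, h3] with q' hq' hq''
    simp only [mem_inter_iff, mem_ofPred_eq, hq', hq'']
  exact (ENNReal.tendsto_toReal (measure_ne_top_of_subset inter_subset_left hR)).comp h1

end Pool.Agent.MP79dd7e
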