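import Mathlib

set_option autoImplicit false

/-! Definitions for quadrisections of convex polygons in the plane `ℝ × ℝ`. -/

namespace Pool.Agent.MP79dd7e

open MeasureTheory

/-- The standard scalar product of the plane. -/
def dot (u v : ℝ × ℝ) : ℝ := u.1 * v.1 + u.2 * v.2

/-- The line through the point `p` which is orthogonal to the vector `u`. -/
def line (p u : ℝ × ℝ) : Set (ℝ × ℝ) := {x | dot u (x - p) = 0}

/-- The closed quadrant with apex `p` bounded by the lines `line p u` and `line p w`
(for orthogonal `u`, `w`), on the sides to which `u` and `w` point. -/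
def quadrant (p u w : ℝ × ℝ) : Set (ℝ × ℝ) := {x | 0 ≤ dot u (x - p) ∧ 0 ≤ dot w (x - p)}

/-- `R` is a convex `m`-gon: a compact convex set with nonempty interior and with exactly
`m` vertices (extreme points). -/
structure IsConvexGon (m : ℕ) (R : Set (ℝ × ℝ)) : Prop where
  convex : Convex ℝ R
  compact : IsCompact R
  nonempty_interior : (interior R).Nonempty
  card_vertices : (Set.extremePoints ℝ R).ncard = m

/-- The unordered pair `q` of lines is a quadrisection of `R`: the two lines are perpendicular,
meet at an interior point of `R`, and each of the four closed quadrants that they bound meets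
`R` in a quarter of the area of `R`. -/
def IsQuadrisection (R : Set (ℝ × ℝ)) (q : Sym2 (Set (ℝ × ℝ))) : Prop :=
  ∃ p u w : ℝ × ℝ, u ≠ 0 ∧ w ≠ 0 ∧ dot u w = 0 ∧ p ∈ interior R ∧
    q = s(line p u, line p w) ∧
    volume (R ∩ quadrant p u w) = volume R / 4 ∧
    volume (R ∩ quadrant p (-u) w) = volume R / 4 ∧
    volume (R ∩ quadrant p u (-w)) = volume R / 4 ∧
    volume (R ∩ quadrant p (-u) (-w)) = volume R / 4

/-- The number of quadrisections of `R`, possibly infinite. -/
noncomputable def numQuadrisections (R : Set (ℝ × ℝ)) : ℕ∞ :=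
  {q : Sym2 (Set (ℝ × ℝ)) | IsQuadrisection R q}.encard

end Pool.Agent.MP79dd7e
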