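import Pool.Agent.MP79dd7e.Corner

set_option autoImplicit false

namespace Pool.Agent.MP79dd7e

open MeasureTheory Set Filter Topology

/-- A point at which two independent valid constraints are tight is extreme. -/
theorem extreme_of_two {R : Set (ℝ × ℝ)} {v : ℝ × ℝ} (hv : v ∈ R) {a b c a' b' c' : ℝ}
    (h : ∀ x ∈ R, a * x.1 + b * x.2 ≤ c) (h' : ∀ x ∈ R, a' * x.1 + b' * x.2 ≤ c')
    (e2 : a * v.1 + b * v.2 = c) (e3 : a' * v.1 + b' * v.2 = c') (e4 : a * b' - b * a' ≠ 0) :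
    v ∈ extremePoints ℝ R := by
  apply exposedPoints_subset_extremePoints
  refine ⟨hv, lfun (a + a') (b + b'), fun y hy => ⟨?_, fun hle => ?_⟩⟩
  · have h5 := h y hy
    have h6 := h' y hy
    rw [lfun_apply, lfun_apply]
    linarith
  · have h5 := h y hy
    have h6 := h' y hy
    rw [lfun_apply, lfun_apply] at hle
    have h7 : a * y.1 + b * y.2 = c := by linarith
    have h8 : a' * y.1 + b' * y.2 = c' := by linarith
    have h9 : (a * b' - b * a') * (y.1 - v.1) = 0 := by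
      linear_combination b' * (h7 - e2) - b * (h8 - e3)
    have h10 : (a * b' - b * a') * (y.2 - v.2) = 0 := by
      linear_combination a * (h8 - e3) - a' * (h7 - e2)
    have h11 : y.1 - v.1 = 0 := (mul_eq_zero.1 h9).resolve_left e4
    have h12 : y.2 - v.2 = 0 := (mul_eq_zero.1 h10).resolve_left e4
    ext <;> linarith

theorem first_extreme {a b c d : ℕ × ℝ} (ha : Adm a) (hb : Adm b) (hc : Adm c) (hd : Adm d)
    {p : ℝ × ℝ} (hp : (1 - p.1, 1 - p.2) ∈ F a) : p ∈ extremePoints ℝ (B a b c d) := by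
  have hpB := first_mem_B ha hb hc hd hp
  obtain ⟨i, hi, hq⟩ := hp
  have h1 : 1 - p.1 = a.2 * (i : ℝ) ^ 2 := congrArg Prod.fst hq
  have h2 : 1 - p.2 = a.2 * ((a.1 : ℝ) - i) ^ 2 := congrArg Prod.snd hq
  have hchord : ∀ j : ℕ, j < a.1 → ∀ x ∈ B a b c d,
      (2 * (a.1 : ℝ) - 2 * j - 1) * x.1 + (2 * j + 1) * x.2 ≤ 2 * a.1 - a.2 * rhs a.1 j := by
    intro j hj x hx
    have := hx.1.2.2 j hj
    simp only at this
    linarith
  have htight : ∀ j : ℕ, (i = j ∨ i = j + 1) →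
      (2 * (a.1 : ℝ) - 2 * j - 1) * p.1 + (2 * j + 1) * p.2 = 2 * a.1 - a.2 * rhs a.1 j := by
    intro j hj
    have h3 := chord_at a j i
    have h4 : ((i : ℝ) - j) * ((i : ℝ) - (j + 1)) = 0 := by
      rcases hj with h | h
      · rw [h]; ring
      · rw [h]; push_cast; ring
    rw [h4, mul_zero] at h3
    have h5 : (P a i).1 = 1 - p.1 := by rw [h1]; rfl
    have h6 : (P a i).2 = 1 - p.2 := by rw [h2]; rfl
    rw [h5, h6] at h3
    linarith
  rcases Nat.eq_zero_or_pos i with h0 | h0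
  · -- the first point of the chain: `x ≤ 1`
    subst h0
    refine extreme_of_two hpB (a := 1) (b := 0) (c := 1)
      (a' := 2 * (a.1 : ℝ) - 2 * (0 : ℕ) - 1) (b' := 2 * (0 : ℕ) + 1)
      (c' := 2 * a.1 - a.2 * rhs a.1 0) ?_ (hchord 0 ha.1) ?_ (htight 0 (Or.inl rfl)) ?_
    · intro x hx
      have : 0 ≤ 1 - x.1 := hx.1.1
      linarith
    · rw [← sub_eq_zero]
      have : p.1 = 1 := by
        push_cast at h1
        linarith
      rw [this]; ring
    · norm_num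
  · obtain ⟨j, rfl⟩ := Nat.exists_eq_succ_of_ne_zero (Nat.pos_iff_ne_zero.1 h0)
    have hj : j < a.1 := by omega
    rcases eq_or_lt_of_le hi with h3 | h3
    · -- the last point of the chain
      refine extreme_of_two hpB (a := 0) (b := 1) (c := 1)
        (a' := 2 * (a.1 : ℝ) - 2 * j - 1) (b' := 2 * j + 1)
        (c' := 2 * a.1 - a.2 * rhs a.1 j) ?_ (hchord j hj) ?_ (htight j (Or.inr rfl)) ?_
      · intro x hx
        have : 0 ≤ 1 - x.2 := hx.1.2.1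
        linarith
      · have : p.2 = 1 := by
          rw [← h3] at h2
          simp only [sub_self] at h2
          linarith
        rw [this]; ring
      · have : (a.1 : ℝ) = j + 1 := by rw [← h3]; push_cast; ring
        rw [this]
        intro h
        have : -(1 : ℝ) = 0 := by linarith
        norm_num at this
    · refine extreme_of_two hpB
        (a := 2 * (a.1 : ℝ) - 2 * j - 1) (b := 2 * j + 1) (c := 2 * a.1 - a.2 * rhs a.1 j)
        (a' := 2 * (a.1 : ℝ) - 2 * (j + 1 : ℕ) - 1) (b' := 2 * (j + 1 : ℕ) + 1)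
        (c' := 2 * a.1 - a.2 * rhs a.1 (j + 1)) (hchord j hj) (hchord (j + 1) h3)
        (htight j (Or.inr rfl)) (htight (j + 1) (Or.inl rfl)) ?_
      have hk : (0 : ℝ) < a.1 := by exact_mod_cast ha.1
      push_cast
      intro h
      have : 4 * (a.1 : ℝ) = 0 := by linarith
      linarith

theorem extreme_rot {a b c d : ℕ × ℝ} {p : ℝ × ℝ} (h : p ∈ extremePoints ℝ (B b c d a)) :
    rot p ∈ extremePoints ℝ (B a b c d) := by
  rw [← rot_image_B a b c d, ← image_extremePoints]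
  exact ⟨p, h, rfl⟩

theorem V_subset_extreme {a b c d : ℕ × ℝ} (ha : Adm a) (hb : Adm b) (hc : Adm c) (hd : Adm d) :
    V a b c d ⊆ extremePoints ℝ (B a b c d) := by
  rintro p (h | h | h | h)
  · exact first_extreme ha hb hc hd h
  · have h1 : ((p.2, -p.1) : ℝ × ℝ) ∈ extremePoints ℝ (B b c d a) := by
      apply first_extreme hb hc hd ha
      simpa using h
    simpa [rot] using extreme_rot h1
  · have h1 : ((-p.1, -p.2) : ℝ × ℝ) ∈ extremePoints ℝ (B c d a b) := by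
      apply first_extreme hc hd ha hb
      simpa using h
    simpa [rot] using extreme_rot (extreme_rot h1)
  · have h1 : ((-p.2, p.1) : ℝ × ℝ) ∈ extremePoints ℝ (B d a b c) := by
      apply first_extreme hd ha hb hc
      simpa using h
    simpa [rot] using extreme_rot (extreme_rot (extreme_rot h1))

theorem extreme_eq {a b c d : ℕ × ℝ} (ha : Adm a) (hb : Adm b) (hc : Adm c) (hd : Adm d) :
    extremePoints ℝ (B a b c d) = V a b c d := by
  apply Subset.antisymm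
  · rw [B_eq_hull ha hb hc hd]
    exact extremePoints_convexHull_subset
  · exact V_subset_extreme ha hb hc hd

theorem F_eq (a : ℕ × ℝ) : F a = (P a) '' ((Finset.range (a.1 + 1) : Finset ℕ) : Set ℕ) := by
  ext q
  simp only [F, mem_ofPred_eq, mem_image, Finset.coe_range, mem_Iio]
  constructor
  · rintro ⟨i, hi, rfl⟩; exact ⟨i, by omega, rfl⟩
  · rintro ⟨i, hi, rfl⟩; exact ⟨i, by omega, rfl⟩

theorem finite_F (a : ℕ × ℝ) : (F a).Finite := by
  rw [F_eq]; exact (Finset.finite_toSet _).image _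

theorem ncard_F {a : ℕ × ℝ} (ha : Adm a) : (F a).ncard = a.1 + 1 := by
  rw [F_eq, Set.ncard_image_of_injOn, Set.ncard_coe_finset, Finset.card_range]
  intro i _ j _ h
  have h1 : a.2 * (i : ℝ) ^ 2 = a.2 * (j : ℝ) ^ 2 := congrArg Prod.fst h
  have h2 := mul_left_cancel₀ ha.2.1.ne' h1
  have h3 : (i : ℝ) = j := by
    have hi : (0 : ℝ) ≤ i := by positivity
    have hj : (0 : ℝ) ≤ j := by positivity
    exact (sq_eq_sq₀ hi hj).1 h2
  exact_mod_cast h3

theorem F_bounds {a : ℕ × ℝ} (ha : Adm a) {q : ℝ × ℝ} (hq : q ∈ F a) :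
    (0 ≤ q.1 ∧ q.1 ≤ 1 / 2) ∧ (0 ≤ q.2 ∧ q.2 ≤ 1 / 2) := by
  obtain ⟨i, hi, rfl⟩ := hq
  have hi' : (i : ℝ) ≤ a.1 := by exact_mod_cast hi
  obtain ⟨_, ha2, ha3⟩ := ha
  have b1 : a.2 * (i : ℝ) ^ 2 ≤ 1 / 2 := by
    refine le_trans ?_ ha3
    gcongr
  have b2 : a.2 * ((a.1 : ℝ) - i) ^ 2 ≤ 1 / 2 := by
    refine le_trans ?_ ha3
    have : ((a.1 : ℝ) - i) ^ 2 ≤ (a.1 : ℝ) ^ 2 := by
      have : (0 : ℝ) ≤ i := by positivity
      nlinarith
    gcongr
  exact ⟨⟨by unfold P; positivity, b1⟩, ⟨by unfold P; positivity, b2⟩⟩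

/-- Four charts of the plane. -/
def ch (j : Fin 4) (p : ℝ × ℝ) : ℝ × ℝ :=
  match j with
  | 0 => (1 - p.1, 1 - p.2)
  | 1 => (1 - p.2, 1 + p.1)
  | 2 => (1 + p.1, 1 + p.2)
  | 3 => (1 + p.2, 1 - p.1)

theorem ncard_preimage_of_bij {f : ℝ × ℝ → ℝ × ℝ} (hf : Function.Bijective f) {S : Set (ℝ × ℝ)} :
    (f ⁻¹' S).ncard = S.ncard := by
  have h1 : f '' (f ⁻¹' S) = S := image_preimage_eq _ hf.2
  conv_rhs => rw [← h1]
  rw [Set.ncard_image_of_injective _ hf.1]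

theorem bij0 : Function.Bijective (fun p : ℝ × ℝ => ((1 - p.1, 1 - p.2) : ℝ × ℝ)) := by
  constructor
  · intro p q h
    simp only [Prod.mk.injEq] at h
    ext <;> linarith [h.1, h.2]
  · intro q
    exact ⟨(1 - q.1, 1 - q.2), by simp⟩

theorem bij1 : Function.Bijective (fun p : ℝ × ℝ => ((1 - p.2, 1 + p.1) : ℝ × ℝ)) := by
  constructor
  · intro p q h
    simp only [Prod.mk.injEq] at h
    ext <;> linarith [h.1, h.2]
  · intro q
    exact ⟨(q.2 - 1, 1 - q.1), by simp⟩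

theorem bij2 : Function.Bijective (fun p : ℝ × ℝ => ((1 + p.1, 1 + p.2) : ℝ × ℝ)) := by
  constructor
  · intro p q h
    simp only [Prod.mk.injEq] at h
    ext <;> linarith [h.1, h.2]
  · intro q
    exact ⟨(q.1 - 1, q.2 - 1), by simp⟩

theorem bij3 : Function.Bijective (fun p : ℝ × ℝ => ((1 + p.2, 1 - p.1) : ℝ × ℝ)) := by
  constructor
  · intro p q h
    simp only [Prod.mk.injEq] at h
    ext <;> linarith [h.1, h.2]
  · intro q
    exact ⟨(1 - q.2, q.1 - 1), by simp⟩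

theorem ncard_V {a b c d : ℕ × ℝ} (ha : Adm a) (hb : Adm b) (hc : Adm c) (hd : Adm d) :
    (V a b c d).ncard = (a.1 + 1) + (b.1 + 1) + (c.1 + 1) + (d.1 + 1) := by
  set f0 := (fun p : ℝ × ℝ => ((1 - p.1, 1 - p.2) : ℝ × ℝ)) with hf0
  set f1 := (fun p : ℝ × ℝ => ((1 - p.2, 1 + p.1) : ℝ × ℝ)) with hf1
  set f2 := (fun p : ℝ × ℝ => ((1 + p.1, 1 + p.2) : ℝ × ℝ)) with hf2
  set f3 := (fun p : ℝ × ℝ => ((1 + p.2, 1 - p.1) : ℝ × ℝ)) with hf3
  have hV : V a b c d = ((f0 ⁻¹' F a ∪ f1 ⁻¹' F b) ∪ f2 ⁻¹' F c) ∪ f3 ⁻¹' F d := by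
    ext p
    simp only [V, mem_ofPred_eq, mem_union, mem_preimage, hf0, hf1, hf2, hf3]
    tauto
  have n0 : (f0 ⁻¹' F a).ncard = a.1 + 1 := by rw [ncard_preimage_of_bij bij0, ncard_F ha]
  have n1 : (f1 ⁻¹' F b).ncard = b.1 + 1 := by rw [ncard_preimage_of_bij bij1, ncard_F hb]
  have n2 : (f2 ⁻¹' F c).ncard = c.1 + 1 := by rw [ncard_preimage_of_bij bij2, ncard_F hc]
  have n3 : (f3 ⁻¹' F d).ncard = d.1 + 1 := by rw [ncard_preimage_of_bij bij3, ncard_F hd]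
  have fin0 : (f0 ⁻¹' F a).Finite := (finite_F a).preimage bij0.1.injOn
  have fin1 : (f1 ⁻¹' F b).Finite := (finite_F b).preimage bij1.1.injOn
  have fin2 : (f2 ⁻¹' F c).Finite := (finite_F c).preimage bij2.1.injOn
  have fin3 : (f3 ⁻¹' F d).Finite := (finite_F d).preimage bij3.1.injOn
  have b0 : ∀ p ∈ f0 ⁻¹' F a, 1 / 2 ≤ p.1 ∧ 1 / 2 ≤ p.2 := by
    intro p hp
    have h1 := F_bounds ha hp
    simp only [hf0] at h1
    constructor <;> linarith [h1.1.2, h1.2.2]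
  have b1 : ∀ p ∈ f1 ⁻¹' F b, p.1 ≤ -(1 / 2) ∧ 1 / 2 ≤ p.2 := by
    intro p hp
    have h1 := F_bounds hb hp
    simp only [hf1] at h1
    constructor <;> linarith [h1.1.2, h1.2.2]
  have b2 : ∀ p ∈ f2 ⁻¹' F c, p.1 ≤ -(1 / 2) ∧ p.2 ≤ -(1 / 2) := by
    intro p hp
    have h1 := F_bounds hc hp
    simp only [hf2] at h1
    constructor <;> linarith [h1.1.2, h1.2.2]
  have b3 : ∀ p ∈ f3 ⁻¹' F d, 1 / 2 ≤ p.1 ∧ p.2 ≤ -(1 / 2) := by
    intro p hp
    have h1 := F_bounds hd hp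
    simp only [hf3] at h1
    constructor <;> linarith [h1.1.2, h1.2.2]
  rw [hV, Set.ncard_union_eq _ ((fin0.union fin1).union fin2) fin3,
    Set.ncard_union_eq _ (fin0.union fin1) fin2, Set.ncard_union_eq _ fin0 fin1, n0, n1, n2, n3]
  · rw [Set.disjoint_left]
    intro p h0 h1
    linarith [(b0 p h0).1, (b1 p h1).1]
  · rw [Set.disjoint_left]
    rintro p (h0 | h0) h1
    · linarith [(b0 p h0).1, (b2 p h1).1]
    · linarith [(b1 p h0).2, (b2 p h1).2]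
  · rw [Set.disjoint_left]
    rintro p ((h0 | h0) | h0) h1
    · linarith [(b0 p h0).2, (b3 p h1).2]
    · linarith [(b1 p h0).2, (b3 p h1).2]
    · linarith [(b2 p h0).1, (b3 p h1).1]

theorem isClosed_B (a b c d : ℕ × ℝ) : IsClosed (B a b c d) := by
  refine ((isClosed_W a).preimage (f := fun p : ℝ × ℝ => ((1 - p.1, 1 - p.2) : ℝ × ℝ))
    (by fun_prop)).inter (((isClosed_W b).preimage
    (f := fun p : ℝ × ℝ => ((1 - p.2, 1 + p.1) : ℝ × ℝ)) (by fun_prop)).inter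
    (((isClosed_W c).preimage (f := fun p : ℝ × ℝ => ((1 + p.1, 1 + p.2) : ℝ × ℝ))
    (by fun_prop)).inter ((isClosed_W d).preimage
    (f := fun p : ℝ × ℝ => ((1 + p.2, 1 - p.1) : ℝ × ℝ)) (by fun_prop))))

theorem B_subset {a b c d : ℕ × ℝ} {p : ℝ × ℝ} (h : p ∈ B a b c d) :
    (-1 ≤ p.1 ∧ p.1 ≤ 1) ∧ (-1 ≤ p.2 ∧ p.2 ≤ 1) := by
  have h1 : 0 ≤ 1 - p.1 := h.1.1
  have h2 : 0 ≤ 1 - p.2 := h.1.2.1
  have h3 : 0 ≤ 1 + p.1 := h.2.2.1.1
  have h4 : 0 ≤ 1 + p.2 := h.2.2.1.2.1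
  exact ⟨⟨by linarith, by linarith⟩, ⟨by linarith, by linarith⟩⟩

/-- Points of the square in a quadrant like region are in `B` once the first corner allows. -/
theorem mem_B_of {a b c d : ℕ × ℝ} (hb : Adm b) (hc : Adm c) (hd : Adm d) {p : ℝ × ℝ}
    (h0 : (1 - p.1, 1 - p.2) ∈ W a) (h1 : -(1 / 2) ≤ p.1) (h2 : -(1 / 2) ≤ p.2) :
    p ∈ B a b c d := by
  have h3 : 0 ≤ 1 - p.1 := h0.1
  have h4 : 0 ≤ 1 - p.2 := h0.2.1
  refine ⟨h0, ?_, ?_, ?_⟩
  · apply W_of_right hb.2.1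
    · show _ ≤ 1 + p.1
      linarith [hb.2.2]
    · show 0 ≤ 1 - p.2
      linarith
  · apply W_of_right hc.2.1
    · show _ ≤ 1 + p.2
      linarith [hc.2.2]
    · show 0 ≤ 1 + p.1
      linarith
  · apply W_of_left hd.2.1
    · show _ ≤ 1 + p.2
      linarith [hd.2.2]
    · show 0 ≤ 1 - p.1
      linarith

theorem body_B {a b c d : ℕ × ℝ} (ha : Adm a) (hb : Adm b) (hc : Adm c) (hd : Adm d) :
    Body (B a b c d) := by
  refine ⟨convex_B a b c d, ?_, ?_⟩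
  · apply Metric.isCompact_of_isClosed_isBounded (isClosed_B a b c d)
    have : B a b c d ⊆ Icc ((-1, -1) : ℝ × ℝ) (1, 1) := by
      intro p hp
      obtain ⟨⟨h1, h2⟩, ⟨h3, h4⟩⟩ := B_subset hp
      exact ⟨⟨h1, h3⟩, ⟨h2, h4⟩⟩
    exact (isCompact_Icc.isBounded).subset this
  · refine ⟨((0, 0) : ℝ × ℝ), ?_⟩
    rw [mem_interior]
    refine ⟨Ioo (-(1 / 2) : ℝ) (1 / 2) ×ˢ Ioo (-(1 / 2) : ℝ) (1 / 2), ?_,
      isOpen_Ioo.prod isOpen_Ioo, ?_⟩
    · rintro p ⟨⟨h1, h2⟩, ⟨h3, h4⟩⟩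
      apply mem_B_of hb hc hd _ h1.le h3.le
      apply W_of_left ha.2.1
      · show _ ≤ 1 - p.1
        linarith [ha.2.2]
      · show 0 ≤ 1 - p.2
        linarith
    · constructor <;> constructor <;> norm_num

theorem isConvexGon_B {a b c d : ℕ × ℝ} (ha : Adm a) (hb : Adm b) (hc : Adm c) (hd : Adm d) :
    IsConvexGon ((a.1 + 1) + (b.1 + 1) + (c.1 + 1) + (d.1 + 1)) (B a b c d) := by
  have h := body_B ha hb hc hd
  exact ⟨h.convex, h.compact, h.int, by rw [extreme_eq ha hb hc hd, ncard_V ha hb hc hd]⟩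

end Pool.Agent.MP79dd7e
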