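import Pool.Agent.MP79dd7e.Chain

set_option autoImplicit false

namespace Pool.Agent.MP79dd7e

open MeasureTheory Set Filter Topology

/-- The real point with the given integer coordinates. -/
def toR (v : ℤ × ℤ) : ℝ × ℝ := ((v.1 : ℝ), (v.2 : ℝ))

theorem toR_injective : Function.Injective toR := by
  intro v w h
  have h1 := congrArg Prod.fst h
  have h2 := congrArg Prod.snd h
  simp only [toR, Int.cast_inj] at h1 h2
  exact Prod.ext h1 h2

/-- The constraint is tight at the integer point. -/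
def tight (c : Con) (v : ℤ × ℤ) : Bool := decide (c.1 * v.1 + c.2.1 * v.2 = c.2.2)

/-- The integer point is a vertex. -/
def isVert (C : List Con) (v : ℤ × ℤ) : Bool :=
  okPt C v.1 v.2 && C.any (fun c => C.any (fun d => tight c v && tight d v &&
    decide (c.1 * d.2.1 - c.2.1 * d.1 ≠ 0)))

theorem continuous_cfun (a b : ℝ) : Continuous (fun x : ℝ × ℝ => a * x.1 + b * x.2) := by
  fun_prop

theorem isClosed_Reg (C : List Con) : IsClosed (Reg C) := by
  have : Reg C = ⋂ c ∈ {c | c ∈ C}, {x : ℝ × ℝ | (c.1 : ℝ) * x.1 + (c.2.1 : ℝ) * x.2 ≤ (c.2.2 : ℝ)} := by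
    ext x
    simp only [Reg, mem_ofPred_eq, mem_iInter]
  rw [this]
  exact isClosed_biInter fun c _ => isClosed_le (continuous_cfun _ _) continuous_const

/-- The linear functional `a x + b y`. -/
noncomputable def lfun (a b : ℝ) : (ℝ × ℝ) →L[ℝ] ℝ :=
  a • ContinuousLinearMap.fst ℝ ℝ ℝ + b • ContinuousLinearMap.snd ℝ ℝ ℝ

theorem lfun_apply (a b : ℝ) (x : ℝ × ℝ) : lfun a b x = a * x.1 + b * x.2 := by
  simp [lfun]

theorem isVert_spec {C : List Con} {v : ℤ × ℤ} (h : isVert C v = true) :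
    toR v ∈ extremePoints ℝ (Reg C) := by
  unfold isVert at h
  rw [Bool.and_eq_true, List.any_eq_true] at h
  obtain ⟨h1, c, hc, h2⟩ := h
  rw [List.any_eq_true] at h2
  obtain ⟨d, hd, h2⟩ := h2
  simp only [Bool.and_eq_true, tight, decide_eq_true_eq] at h2
  obtain ⟨⟨h2, h3⟩, h4⟩ := h2
  have hv : toR v ∈ Reg C := okPt_spec h1
  have e2 : (c.1 : ℝ) * v.1 + c.2.1 * v.2 = c.2.2 := by exact_mod_cast h2
  have e3 : (d.1 : ℝ) * v.1 + d.2.1 * v.2 = d.2.2 := by exact_mod_cast h3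
  have e4 : (c.1 : ℝ) * d.2.1 - c.2.1 * d.1 ≠ 0 := by exact_mod_cast h4
  apply exposedPoints_subset_extremePoints
  refine ⟨hv, lfun ((c.1 : ℝ) + d.1) ((c.2.1 : ℝ) + d.2.1), fun y hy => ⟨?_, fun h => ?_⟩⟩
  · have h5 := hy c hc
    have h6 := hy d hd
    rw [lfun_apply, lfun_apply]
    simp only [toR]
    linarith
  · have h5 := hy c hc
    have h6 := hy d hd
    rw [lfun_apply, lfun_apply] at h
    simp only [toR] at h
    have h7 : (c.1 : ℝ) * y.1 + c.2.1 * y.2 = c.2.2 := by linarith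
    have h8 : (d.1 : ℝ) * y.1 + d.2.1 * y.2 = d.2.2 := by linarith
    have h9 : ((c.1 : ℝ) * d.2.1 - c.2.1 * d.1) * (y.1 - v.1) = 0 := by
      linear_combination (d.2.1 : ℝ) * (h7 - e2) - (c.2.1 : ℝ) * (h8 - e3)
    have h10 : ((c.1 : ℝ) * d.2.1 - c.2.1 * d.1) * (y.2 - v.2) = 0 := by
      linear_combination (c.1 : ℝ) * (h8 - e3) - (d.1 : ℝ) * (h7 - e2)
    have h11 : y.1 - v.1 = 0 := by
      rcases mul_eq_zero.1 h9 with h | h
      · exact absurd h e4
      · exact h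
    have h12 : y.2 - v.2 = 0 := by
      rcases mul_eq_zero.1 h10 with h | h
      · exact absurd h e4
      · exact h
    ext
    · simp only [toR]; linarith
    · simp only [toR]; linarith

theorem corners_finite (L : List Con) : (corners L).Finite := by
  have h1 : ((fun c : Con => (((c.1 : ℝ), (c.2.1 : ℝ)) : ℝ × ℝ)) '' {c | c ∈ L}).Finite :=
    (List.finite_toSet L).image _
  have h2 : ((fun c : Con => (((c.1 : ℝ), (c.2.2 : ℝ)) : ℝ × ℝ)) '' {c | c ∈ L}).Finite :=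
    (List.finite_toSet L).image _
  refine (h1.union h2).subset ?_
  rintro p ⟨c, hc, hp | hp⟩
  · left; exact ⟨c, hc, hp.symm⟩
  · right; exact ⟨c, hc, hp.symm⟩

/-- Everything that we check about the polygon. -/
def chkGon (C : List Con) (a b : Con) (L : List Con) (W : List (ℤ × ℤ)) (m : ℕ) : Bool :=
  chkUp C (a :: b :: L) && decide (((-1, 0, -a.1) : Con) ∈ C) && chkLow C (a :: b :: L) &&
    decide (0 < area2 (a :: b :: L)) && decide (W.Nodup) && decide (W.length = m) &&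
    (a :: b :: L).all (fun c => decide ((c.1, c.2.1) ∈ W) && decide ((c.1, c.2.2) ∈ W)) &&
    W.all (isVert C) && C.all (fun c => decide (((c.1, -c.2.1, c.2.2) : Con) ∈ C))

theorem chkGon_spec {C : List Con} {a b : Con} {L : List Con} {W : List (ℤ × ℤ)} {m : ℕ}
    (h : chkGon C a b L W m = true) :
    Body (Reg C) ∧ IsConvexGon m (Reg C) ∧ volume.real (Reg C) = (area2 (a :: b :: L) : ℝ) / 2 ∧
      refl ⁻¹' (Reg C) = Reg C := by
  unfold chkGon at h
  simp only [Bool.and_eq_true, decide_eq_true_eq] at h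
  obtain ⟨⟨⟨⟨⟨⟨⟨⟨h1, h2⟩, h3⟩, h4⟩, h5⟩, h6⟩, h7⟩, h8⟩, h9⟩ := h
  have hhull := hull C a b L h1 h2
  have hcomp : IsCompact (Reg C) :=
    ((corners_finite (a :: b :: L)).isCompact_convexHull (𝕜 := ℝ)).of_isClosed_subset (isClosed_Reg C) hhull
  have hvol : volume (Reg C) = ENNReal.ofReal ((area2 (a :: b :: L) : ℝ) / 2) :=
    le_antisymm (up C a (b :: L) h1 h2) (low C (a :: b :: L) h3)
  have hpos : (0 : ℝ) < (area2 (a :: b :: L) : ℝ) / 2 := by
    apply div_pos _ (by norm_num)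
    exact_mod_cast h4
  have hreal : volume.real (Reg C) = (area2 (a :: b :: L) : ℝ) / 2 := by
    rw [measureReal_def, hvol, ENNReal.toReal_ofReal hpos.le]
  have hint : (interior (Reg C)).Nonempty := by
    by_contra hne
    rw [Set.not_nonempty_iff_eq_empty] at hne
    have h10 : Reg C ⊆ frontier (Reg C) := by
      rw [frontier, hne, sdiff_empty]; exact subset_closure
    have h11 := (convex_Reg C).addHaar_frontier (volume : Measure (ℝ × ℝ))
    have h12 : volume (Reg C) = 0 := measure_mono_null h10 h11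
    rw [hvol] at h12
    rw [ENNReal.ofReal_eq_zero] at h12
    linarith
  refine ⟨⟨convex_Reg C, hcomp, hint⟩, ⟨convex_Reg C, hcomp, hint, ?_⟩, hreal, ?_⟩
  · have hset : extremePoints ℝ (Reg C) = toR '' {v | v ∈ W} := by
      apply Subset.antisymm
      · have hcor : corners (a :: b :: L) ⊆ Reg C := by
          rintro p ⟨c, hc, hp⟩
          rw [List.all_eq_true] at h7 h8
          have h13 := h7 c hc
          rw [Bool.and_eq_true, decide_eq_true_eq, decide_eq_true_eq] at h13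
          rcases hp with rfl | rfl
          · exact extremePoints_subset (isVert_spec (h8 _ h13.1))
          · exact extremePoints_subset (isVert_spec (h8 _ h13.2))
        have heq : Reg C = convexHull ℝ (corners (a :: b :: L)) :=
          Subset.antisymm hhull (convexHull_min hcor (convex_Reg C))
        rw [heq]
        refine extremePoints_convexHull_subset.trans ?_
        rintro p ⟨c, hc, hp⟩
        rw [List.all_eq_true] at h7
        have h13 := h7 c hc
        rw [Bool.and_eq_true, decide_eq_true_eq, decide_eq_true_eq] at h13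
        rcases hp with rfl | rfl
        · exact ⟨_, h13.1, rfl⟩
        · exact ⟨_, h13.2, rfl⟩
      · rintro p ⟨v, hv, rfl⟩
        rw [List.all_eq_true] at h8
        exact isVert_spec (h8 v hv)
    rw [hset, Set.ncard_image_of_injective _ toR_injective]
    have : {v | v ∈ W} = ((W.toFinset : Finset (ℤ × ℤ)) : Set (ℤ × ℤ)) := by
      ext v; simp
    rw [this, Set.ncard_coe_finset, List.toFinset_card_of_nodup h5, h6]
  · ext x
    simp only [mem_preimage, Reg, mem_ofPred_eq, refl]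
    rw [List.all_eq_true] at h9
    constructor
    · intro hx c hc
      have h13 := h9 c hc
      rw [decide_eq_true_eq] at h13
      have := hx _ h13
      push_cast at this
      linarith
    · intro hx c hc
      have h13 := h9 c hc
      rw [decide_eq_true_eq] at h13
      have := hx _ h13
      push_cast at this
      linarith

/-- Check that the profile is above a quarter at the slope `a / b`. -/
def chkPlus (C : List Con) (V a b S T : ℤ) (L1 L2 L3 : List Con) : Bool :=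
  decide (0 < b) && chkLow ((a, -b, -S) :: C) L1 && decide (V ≤ 2 * area2 L1) &&
    chkLow ((-b, -a, -T) :: C) L2 && decide (V ≤ 2 * area2 L2) &&
    chkLow ((-a, b, S) :: (b, a, T) :: C) L3 && decide (V < 4 * area2 L3)

/-- Check that the profile is below a quarter at the slope `a / b`. -/
def chkMinus (C : List Con) (V a b S T : ℤ) (L1 L2 L3 : List Con) : Bool :=
  decide (0 < b) && chkLow ((a, -b, -S) :: C) L1 && decide (V ≤ 2 * area2 L1) &&
    chkLow ((b, a, T) :: C) L2 && decide (V ≤ 2 * area2 L2) &&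
    chkLow ((-a, b, S) :: (-b, -a, -T) :: C) L3 && decide (V < 4 * area2 L3)

theorem real_low {C : List Con} (hb : Body (Reg C)) {C' L : List Con} {X : Set (ℝ × ℝ)}
    (h : chkLow C' L = true) (hX : Reg C' ⊆ Reg C ∩ X) :
    (area2 L : ℝ) / 2 ≤ volume.real (Reg C ∩ X) := by
  have h1 := (low C' L h).trans (measure_mono hX)
  have hfin := measure_ne_top_of_subset (inter_subset_left (s := Reg C) (t := X)) hb.finite
  rw [measureReal_def]
  exact (ENNReal.ofReal_le_iff_le_toReal hfin).1 h1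

theorem mem_cA {a b S : ℤ} (hb : 0 < b) (x : ℝ × ℝ) :
    (a : ℝ) * x.1 + ((-b : ℤ) : ℝ) * x.2 ≤ ((-S : ℤ) : ℝ) ↔
      (S : ℝ) / b ≤ fA ((a : ℝ) / b) x := by
  have hb' : (0 : ℝ) < b := by exact_mod_cast hb
  unfold fA
  rw [div_le_iff₀ hb']
  have : (x.2 - (a : ℝ) / b * x.1) * b = b * x.2 - a * x.1 := by field_simp
  rw [this]
  push_cast
  constructor <;> intro h <;> linarith

theorem mem_cA' {a b S : ℤ} (hb : 0 < b) (x : ℝ × ℝ) :
    ((-a : ℤ) : ℝ) * x.1 + (b : ℝ) * x.2 ≤ (S : ℝ) ↔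
      fA ((a : ℝ) / b) x ≤ (S : ℝ) / b := by
  have hb' : (0 : ℝ) < b := by exact_mod_cast hb
  unfold fA
  rw [le_div_iff₀ hb']
  have : (x.2 - (a : ℝ) / b * x.1) * b = b * x.2 - a * x.1 := by field_simp
  rw [this]
  push_cast
  constructor <;> intro h <;> linarith

theorem mem_cB {a b T : ℤ} (hb : 0 < b) (x : ℝ × ℝ) :
    ((-b : ℤ) : ℝ) * x.1 + ((-a : ℤ) : ℝ) * x.2 ≤ ((-T : ℤ) : ℝ) ↔
      (T : ℝ) / b ≤ fB ((a : ℝ) / b) x := by
  have hb' : (0 : ℝ) < b := by exact_mod_cast hb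
  unfold fB
  rw [div_le_iff₀ hb']
  have : (x.1 + (a : ℝ) / b * x.2) * b = b * x.1 + a * x.2 := by field_simp
  rw [this]
  push_cast
  constructor <;> intro h <;> linarith

theorem mem_cB' {a b T : ℤ} (hb : 0 < b) (x : ℝ × ℝ) :
    (b : ℝ) * x.1 + (a : ℝ) * x.2 ≤ (T : ℝ) ↔
      fB ((a : ℝ) / b) x ≤ (T : ℝ) / b := by
  have hb' : (0 : ℝ) < b := by exact_mod_cast hb
  unfold fB
  rw [le_div_iff₀ hb']
  have : (x.1 + (a : ℝ) / b * x.2) * b = b * x.1 + a * x.2 := by field_simp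
  rw [this]

theorem Reg_cons (c : Con) (C : List Con) : Reg (c :: C) =
    Reg C ∩ {x | (c.1 : ℝ) * x.1 + (c.2.1 : ℝ) * x.2 ≤ (c.2.2 : ℝ)} := by
  ext x
  simp only [Reg, mem_ofPred_eq, mem_inter_iff, List.forall_mem_cons]
  exact and_comm

theorem plus_of {C : List Con} {V : ℤ} (hb : Body (Reg C))
    (hV : volume.real (Reg C) = (V : ℝ) / 2) {G : ℝ → ℝ}
    (hG : ∀ m s t, volume.real (Reg C) / 2 ≤ volume.real (Reg C ∩ {x | s ≤ fA m x}) →
      volume.real (Reg C) / 2 ≤ volume.real (Reg C ∩ {x | t ≤ fB m x}) →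
      volume.real (Reg C) / 4 < volume.real (Reg C ∩ {x | fA m x ≤ s ∧ fB m x ≤ t}) →
      volume.real (Reg C) / 4 < G m) {a b S T : ℤ} {L1 L2 L3 : List Con}
    (h : chkPlus C V a b S T L1 L2 L3 = true) :
    volume.real (Reg C) / 4 < G ((a : ℝ) / b) := by
  unfold chkPlus at h
  simp only [Bool.and_eq_true, decide_eq_true_eq] at h
  obtain ⟨⟨⟨⟨⟨⟨h0, h1⟩, h2⟩, h3⟩, h4⟩, h5⟩, h6⟩ := h
  have r2 : (V : ℝ) ≤ 2 * area2 L1 := by exact_mod_cast h2
  have r4 : (V : ℝ) ≤ 2 * area2 L2 := by exact_mod_cast h4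
  have r6 : (V : ℝ) < 4 * area2 L3 := by exact_mod_cast h6
  apply hG _ ((S : ℝ) / b) ((T : ℝ) / b)
  · have := real_low hb (X := {x | (S : ℝ) / b ≤ fA ((a : ℝ) / b) x}) h1 (by
      rw [Reg_cons]
      rintro x ⟨hx1, hx2⟩
      exact ⟨hx1, (mem_cA h0 x).1 hx2⟩)
    rw [hV]; linarith
  · have := real_low hb (X := {x | (T : ℝ) / b ≤ fB ((a : ℝ) / b) x}) h3 (by
      rw [Reg_cons]
      rintro x ⟨hx1, hx2⟩
      exact ⟨hx1, (mem_cB h0 x).1 hx2⟩)
    rw [hV]; linarith
  · have := real_low hb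
      (X := {x | fA ((a : ℝ) / b) x ≤ (S : ℝ) / b ∧ fB ((a : ℝ) / b) x ≤ (T : ℝ) / b}) h5 (by
      rw [Reg_cons, Reg_cons]
      rintro x ⟨⟨hx1, hx2⟩, hx3⟩
      exact ⟨hx1, (mem_cA' h0 x).1 hx3, (mem_cB' h0 x).1 hx2⟩)
    rw [hV]; linarith

theorem minus_of {C : List Con} {V : ℤ} (hb : Body (Reg C))
    (hV : volume.real (Reg C) = (V : ℝ) / 2) {G : ℝ → ℝ}
    (hG : ∀ m s t, volume.real (Reg C) / 2 ≤ volume.real (Reg C ∩ {x | s ≤ fA m x}) →
      volume.real (Reg C) / 2 ≤ volume.real (Reg C ∩ {x | fB m x ≤ t}) →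
      volume.real (Reg C) / 4 < volume.real (Reg C ∩ {x | fA m x ≤ s ∧ t ≤ fB m x}) →
      G m < volume.real (Reg C) / 4) {a b S T : ℤ} {L1 L2 L3 : List Con}
    (h : chkMinus C V a b S T L1 L2 L3 = true) :
    G ((a : ℝ) / b) < volume.real (Reg C) / 4 := by
  unfold chkMinus at h
  simp only [Bool.and_eq_true, decide_eq_true_eq] at h
  obtain ⟨⟨⟨⟨⟨⟨h0, h1⟩, h2⟩, h3⟩, h4⟩, h5⟩, h6⟩ := h
  have r2 : (V : ℝ) ≤ 2 * area2 L1 := by exact_mod_cast h2
  have r4 : (V : ℝ) ≤ 2 * area2 L2 := by exact_mod_cast h4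
  have r6 : (V : ℝ) < 4 * area2 L3 := by exact_mod_cast h6
  apply hG _ ((S : ℝ) / b) ((T : ℝ) / b)
  · have := real_low hb (X := {x | (S : ℝ) / b ≤ fA ((a : ℝ) / b) x}) h1 (by
      rw [Reg_cons]
      rintro x ⟨hx1, hx2⟩
      exact ⟨hx1, (mem_cA h0 x).1 hx2⟩)
    rw [hV]; linarith
  · have := real_low hb (X := {x | fB ((a : ℝ) / b) x ≤ (T : ℝ) / b}) h3 (by
      rw [Reg_cons]
      rintro x ⟨hx1, hx2⟩
      exact ⟨hx1, (mem_cB' h0 x).1 hx2⟩)
    rw [hV]; linarith
  · have := real_low hb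
      (X := {x | fA ((a : ℝ) / b) x ≤ (S : ℝ) / b ∧ (T : ℝ) / b ≤ fB ((a : ℝ) / b) x}) h5 (by
      rw [Reg_cons, Reg_cons]
      rintro x ⟨⟨hx1, hx2⟩, hx3⟩
      exact ⟨hx1, (mem_cA' h0 x).1 hx3, (mem_cB h0 x).1 hx2⟩)
    rw [hV]; linarith

end Pool.Agent.MP79dd7e
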