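import Pool.Agent.MP79dd7e.Extreme

set_option autoImplicit false

namespace Pool.Agent.MP79dd7e

open MeasureTheory Set Filter Topology
open scoped Pointwise

/-- The region cut off at a corner, in corner coordinates. -/
def cut (a : ℕ × ℝ) : Set (ℝ × ℝ) := {q | 0 ≤ q.1 ∧ 0 ≤ q.2 ∧ q ∉ W a}

/-- The square. -/
def Sq : Set (ℝ × ℝ) := {p | (-1 ≤ p.1 ∧ p.1 ≤ 1) ∧ (-1 ≤ p.2 ∧ p.2 ≤ 1)}

/-- First quadrant. -/
def Q0 (m : ℝ) : Set (ℝ × ℝ) := {p | 0 ≤ fA m p ∧ 0 ≤ fB m p}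
/-- Second quadrant. -/
def Q1 (m : ℝ) : Set (ℝ × ℝ) := {p | 0 ≤ fA m p ∧ fB m p ≤ 0}
/-- Third quadrant. -/
def Q2 (m : ℝ) : Set (ℝ × ℝ) := {p | fA m p ≤ 0 ∧ fB m p ≤ 0}
/-- Fourth quadrant. -/
def Q3 (m : ℝ) : Set (ℝ × ℝ) := {p | fA m p ≤ 0 ∧ 0 ≤ fB m p}

theorem fA_rot (m : ℝ) (p : ℝ × ℝ) : fA m (rot p) = fB m p := by
  simp only [fA, fB, rot]; ring

theorem fB_rot (m : ℝ) (p : ℝ × ℝ) : fB m (rot p) = - fA m p := by
  simp only [fA, fB, rot]; ring

theorem rot_Q1 (m : ℝ) : rot ⁻¹' (Q1 m) = Q0 m := by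
  ext p
  simp only [Q1, Q0, mem_preimage, mem_ofPred_eq, fA_rot, fB_rot]
  constructor <;> rintro ⟨h1, h2⟩ <;> exact ⟨by linarith, by linarith⟩

theorem rot_Q2 (m : ℝ) : rot ⁻¹' (Q2 m) = Q1 m := by
  ext p
  simp only [Q1, Q2, mem_preimage, mem_ofPred_eq, fA_rot, fB_rot]
  constructor <;> rintro ⟨h1, h2⟩ <;> exact ⟨by linarith, by linarith⟩

theorem rot_Q3 (m : ℝ) : rot ⁻¹' (Q3 m) = Q2 m := by
  ext p
  simp only [Q3, Q2, mem_preimage, mem_ofPred_eq, fA_rot, fB_rot]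
  constructor <;> rintro ⟨h1, h2⟩ <;> exact ⟨by linarith, by linarith⟩

theorem mp_rot : MeasurePreserving rot (volume : Measure (ℝ × ℝ)) volume := by
  have h1 := (Measure.measurePreserving_neg (volume : Measure ℝ)).prod
    (MeasurePreserving.id (volume : Measure ℝ))
  have h2 : MeasurePreserving Prod.swap (volume : Measure (ℝ × ℝ)) volume :=
    Measure.measurePreserving_swap
  exact h1.comp h2

theorem meas_Q (m : ℝ) : MeasurableSet (Q0 m) ∧ MeasurableSet (Q1 m) ∧ MeasurableSet (Q2 m) ∧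
    MeasurableSet (Q3 m) := by
  have a1 : MeasurableSet {p : ℝ × ℝ | 0 ≤ fA m p} :=
    measurableSet_le measurable_const (continuous_fA' m).measurable
  have a2 : MeasurableSet {p : ℝ × ℝ | fA m p ≤ 0} :=
    measurableSet_le (continuous_fA' m).measurable measurable_const
  have b1 : MeasurableSet {p : ℝ × ℝ | 0 ≤ fB m p} :=
    measurableSet_le measurable_const (continuous_fB' m).measurable
  have b2 : MeasurableSet {p : ℝ × ℝ | fB m p ≤ 0} :=
    measurableSet_le (continuous_fB' m).measurable measurable_const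
  exact ⟨a1.inter b1, a1.inter b2, a2.inter b2, a2.inter b1⟩

theorem cut_subset {a : ℕ × ℝ} (ha : Adm a) {q : ℝ × ℝ} (hq : q ∈ cut a) :
    (0 ≤ q.1 ∧ q.1 ≤ 1 / 2) ∧ (0 ≤ q.2 ∧ q.2 ≤ 1 / 2) := by
  obtain ⟨h1, h2, h3⟩ := hq
  refine ⟨⟨h1, ?_⟩, ⟨h2, ?_⟩⟩
  · by_contra hcon
    push Not at hcon
    exact h3 (W_of_left ha.2.1 (by linarith [ha.2.2]) h2)
  · by_contra hcon
    push Not at hcon
    exact h3 (W_of_right ha.2.1 (by linarith [ha.2.2]) h1)

theorem meas_cut (a : ℕ × ℝ) : MeasurableSet (cut a) := by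
  have h1 : MeasurableSet {q : ℝ × ℝ | 0 ≤ q.1} := measurableSet_le measurable_const measurable_fst
  have h2 : MeasurableSet {q : ℝ × ℝ | 0 ≤ q.2} := measurableSet_le measurable_const measurable_snd
  exact h1.inter (h2.inter (isClosed_W a).measurableSet.compl)

theorem Sq_finite : volume Sq ≠ ⊤ := by
  have : Sq ⊆ Icc ((-1, -1) : ℝ × ℝ) (1, 1) := by
    rintro p ⟨⟨h1, h2⟩, ⟨h3, h4⟩⟩
    exact ⟨⟨h1, h3⟩, ⟨h2, h4⟩⟩
  exact measure_ne_top_of_subset this isCompact_Icc.measure_lt_top.ne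

theorem quadrant_area {a b c d : ℕ × ℝ} (ha : Adm a) (hb : Adm b) (hc : Adm c) (hd : Adm d)
    {m : ℝ} (h0 : 0 < m) (h1 : m < 1 / 2) :
    volume.real (B a b c d ∩ Q0 m) = volume.real (Sq ∩ Q0 m) - volume.real (cut a) := by
  set T : Set (ℝ × ℝ) := (fun p : ℝ × ℝ => ((1, 1) : ℝ × ℝ) - p) ⁻¹' (cut a) with hT
  have hTm : MeasurableSet T := (meas_cut a).preimage (by fun_prop)
  have hTv : volume.real T = volume.real (cut a) := by
    have := (Measure.measurePreserving_sub_left (volume : Measure (ℝ × ℝ)) ((1, 1) : ℝ × ℝ)).measure_preimage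
      (meas_cut a).nullMeasurableSet
    rw [measureReal_def, measureReal_def, hT, this]
  have hun : Sq ∩ Q0 m = (B a b c d ∩ Q0 m) ∪ T := by
    ext p
    constructor
    · rintro ⟨⟨⟨h2, h3⟩, ⟨h4, h5⟩⟩, h6, h7⟩
      by_cases hW : (1 - p.1, 1 - p.2) ∈ W a
      · left
        refine ⟨mem_B_of hb hc hd hW ?_ ?_, h6, h7⟩
        · unfold fB at h7
          have : m * p.2 ≤ 1 / 2 := by nlinarith
          linarith
        · unfold fA at h6
          have : -(1 / 2) ≤ m * p.1 := by nlinarith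
          linarith
      · right
        refine ⟨?_, ?_, hW⟩
        · show 0 ≤ 1 - p.1
          linarith
        · show 0 ≤ 1 - p.2
          linarith
    · rintro (⟨h2, h3⟩ | h2)
      · exact ⟨B_subset h2, h3⟩
      · obtain ⟨⟨h3, h4⟩, ⟨h5, h6⟩⟩ := cut_subset ha h2
        have h3' : 0 ≤ 1 - p.1 := h3
        have h4' : 1 - p.1 ≤ 1 / 2 := h4
        have h5' : 0 ≤ 1 - p.2 := h5
        have h6' : 1 - p.2 ≤ 1 / 2 := h6
        refine ⟨⟨⟨by linarith, by linarith⟩, ⟨by linarith, by linarith⟩⟩, ?_, ?_⟩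
        · unfold fA
          nlinarith
        · unfold fB
          nlinarith
  have hdisj : Disjoint (B a b c d ∩ Q0 m) T := by
    rw [Set.disjoint_left]
    rintro p ⟨h2, _⟩ ⟨_, _, h3⟩
    exact h3 h2.1
  have hfin : volume (B a b c d ∩ Q0 m) ≠ ⊤ :=
    measure_ne_top_of_subset inter_subset_left (body_B ha hb hc hd).finite
  have hfinT : volume T ≠ ⊤ := by
    refine measure_ne_top_of_subset ?_ Sq_finite
    intro p hp
    have : p ∈ Sq ∩ Q0 m := by rw [hun]; exact Or.inr hp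
    exact this.1
  rw [hun, measureReal_union hdisj hTm hfin hfinT, hTv]
  ring

theorem rot_area {S Q S' Q' : Set (ℝ × ℝ)} (hS : MeasurableSet S) (hQ : MeasurableSet Q)
    (h1 : rot ⁻¹' S = S') (h2 : rot ⁻¹' Q = Q') : volume.real (S ∩ Q) = volume.real (S' ∩ Q') := by
  rw [← h1, ← h2, ← preimage_inter, measureReal_def, measureReal_def,
    mp_rot.measure_preimage (hS.inter hQ).nullMeasurableSet]

theorem meas_B' (a b c d : ℕ × ℝ) : MeasurableSet (B a b c d) := (isClosed_B a b c d).measurableSet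

theorem hasSlope_B {a b c d : ℕ × ℝ} (ha : Adm a) (hb : Adm b) (hc : Adm c) (hd : Adm d)
    {δ : ℝ} (va : volume.real (cut a) = δ) (vb : volume.real (cut b) = δ)
    (vc : volume.real (cut c) = δ) (vd : volume.real (cut d) = δ)
    {m : ℝ} (h0 : 0 < m) (h1 : m < 1 / 2) : HasSlope (B a b c d) m := by
  obtain ⟨mq0, mq1, mq2, mq3⟩ := meas_Q m
  set σ := volume.real (Sq ∩ Q0 m) with hσ
  have q0 : volume.real (B a b c d ∩ Q0 m) = σ - δ := by
    rw [quadrant_area ha hb hc hd h0 h1, va]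
  have q1 : volume.real (B a b c d ∩ Q1 m) = σ - δ := by
    rw [rot_area (meas_B' _ _ _ _) mq1 (rot_B a b c d) (rot_Q1 m),
      quadrant_area hb hc hd ha h0 h1, vb]
  have q2 : volume.real (B a b c d ∩ Q2 m) = σ - δ := by
    rw [rot_area (meas_B' _ _ _ _) mq2 (rot_B a b c d) (rot_Q2 m),
      rot_area (meas_B' _ _ _ _) mq1 (rot_B b c d a) (rot_Q1 m),
      quadrant_area hc hd ha hb h0 h1, vc]
  have q3 : volume.real (B a b c d ∩ Q3 m) = σ - δ := by
    rw [rot_area (meas_B' _ _ _ _) mq3 (rot_B a b c d) (rot_Q3 m),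
      rot_area (meas_B' _ _ _ _) mq2 (rot_B b c d a) (rot_Q2 m),
      rot_area (meas_B' _ _ _ _) mq1 (rot_B c d a b) (rot_Q1 m),
      quadrant_area hd ha hb hc h0 h1, vd]
  have hbody := body_B ha hb hc hd
  set R := B a b c d with hR
  -- total area and halves
  have e1 := split_real hbody univ (meas_A m 0)
  have e2 := split_real hbody {x | fA m x ≤ 0} (meas_B m 0)
  have e3 := split_real hbody {x | 0 ≤ fA m x} (meas_B m 0)
  have e4 := split_real hbody univ (meas_B m 0)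
  have e5 := split_real hbody {x | fB m x ≤ 0} (meas_A m 0)
  rw [inter_univ, univ_inter] at e1 e4
  have s1 : volume.real (R ∩ (univ \ {x | fA m x ≤ 0})) = volume.real (R ∩ {x | 0 ≤ fA m x}) := by
    have : (univ \ {x | fA m x ≤ 0} : Set (ℝ × ℝ)) = {x | 0 < fA m x} := by
      ext x; simp
    rw [this]
    exact real_congr R m 0 0 (fun x h1 _ => by
      rw [lt_iff_le_and_ne (a := (0 : ℝ))]
      have := h1.symm
      tauto)
  have s2 : volume.real (R ∩ ({x | fA m x ≤ 0} \ {x | fB m x ≤ 0})) = volume.real (R ∩ Q3 m) := by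
    have : ({x | fA m x ≤ 0} \ {x | fB m x ≤ 0} : Set (ℝ × ℝ)) =
        {x | fA m x ≤ 0 ∧ 0 < fB m x} := by
      ext x; simp
    rw [this]
    exact real_congr R m 0 0 (fun x _ h1 => by
      rw [lt_iff_le_and_ne (a := (0 : ℝ))]
      have := h1.symm
      tauto)
  have s3 : volume.real (R ∩ ({x | 0 ≤ fA m x} \ {x | fB m x ≤ 0})) =
      volume.real (R ∩ Q0 m) := by
    have : ({x | 0 ≤ fA m x} \ {x | fB m x ≤ 0} : Set (ℝ × ℝ)) =
        {x | 0 ≤ fA m x ∧ 0 < fB m x} := by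
      ext x; simp
    rw [this]
    exact real_congr R m 0 0 (fun x _ h1 => by
      rw [lt_iff_le_and_ne (a := (0 : ℝ))]
      have := h1.symm
      tauto)
  have s5 : volume.real (R ∩ ({x | fB m x ≤ 0} \ {x | fA m x ≤ 0})) =
      volume.real (R ∩ Q1 m) := by
    have : ({x | fB m x ≤ 0} \ {x | fA m x ≤ 0} : Set (ℝ × ℝ)) =
        {x | fB m x ≤ 0 ∧ 0 < fA m x} := by
      ext x; simp
    rw [this]
    exact real_congr R m 0 0 (fun x h1 _ => by
      rw [lt_iff_le_and_ne (a := (0 : ℝ))]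
      have := h1.symm
      tauto)
  have t2 : ({x | fA m x ≤ 0} ∩ {x | fB m x ≤ 0} : Set (ℝ × ℝ)) = Q2 m := rfl
  have t3 : ({x | 0 ≤ fA m x} ∩ {x | fB m x ≤ 0} : Set (ℝ × ℝ)) = Q1 m := rfl
  have t5 : ({x | fB m x ≤ 0} ∩ {x | fA m x ≤ 0} : Set (ℝ × ℝ)) = Q2 m := by
    rw [inter_comm]; rfl
  rw [s1, e3, t3, s3, q0, q1, e2, t2, s2, q2, q3] at e1
  rw [t2, s2, q2, q3] at e2
  rw [t5, s5, q1, q2] at e5
  refine ⟨0, 0, isQuadrisection_of hbody ?_ ?_ ?_⟩
  · unfold cutA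
    rw [e2, e1]; ring
  · unfold cutB
    rw [e5, e1]; ring
  · unfold quad
    have : volume.real (R ∩ Q2 m) = σ - δ := q2
    rw [show {x : ℝ × ℝ | fA m x ≤ 0 ∧ fB m x ≤ 0} = Q2 m from rfl, this, e1]
    ring

/-! ### Scaling -/

theorem mem_W_scale {k : ℕ} {γ : ℝ} (hγ : 0 < γ) (q : ℝ × ℝ) : γ • q ∈ W (k, γ) ↔ q ∈ W (k, 1) := by
  simp only [W, mem_ofPred_eq, Prod.smul_fst, Prod.smul_snd, smul_eq_mul, one_mul]
  refine and_congr (mul_nonneg_iff_of_pos_left hγ) (and_congr (mul_nonneg_iff_of_pos_left hγ) ?_)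
  refine forall_congr' fun i => imp_congr_right fun _ => ?_
  have : (2 * (k : ℝ) - 2 * i - 1) * (γ * q.1) + (2 * i + 1) * (γ * q.2) =
      γ * ((2 * (k : ℝ) - 2 * i - 1) * q.1 + (2 * i + 1) * q.2) := by ring
  rw [this]
  exact mul_le_mul_iff_of_pos_left hγ

theorem cut_scale {k : ℕ} {γ : ℝ} (hγ : 0 < γ) : cut (k, γ) = γ • cut (k, 1) := by
  ext q
  rw [Set.mem_smul_set_iff_inv_smul_mem₀ hγ.ne']
  have h1 := mem_W_scale (k := k) hγ (γ⁻¹ • q)
  rw [smul_inv_smul₀ hγ.ne'] at h1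
  simp only [cut, mem_ofPred_eq, h1, Prod.smul_fst, Prod.smul_snd, smul_eq_mul]
  have hi : 0 < γ⁻¹ := inv_pos.2 hγ
  rw [mul_nonneg_iff_of_pos_left hi, mul_nonneg_iff_of_pos_left hi]

theorem area_scale {k : ℕ} {γ : ℝ} (hγ : 0 < γ) :
    volume.real (cut (k, γ)) = γ ^ 2 * volume.real (cut (k, 1)) := by
  rw [cut_scale hγ, measureReal_def, Measure.addHaar_smul]
  have : Module.finrank ℝ (ℝ × ℝ) = 2 := by simp
  rw [this, ENNReal.toReal_mul, ENNReal.toReal_ofReal (abs_nonneg _), abs_of_nonneg (by positivity)]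
  rfl

theorem cut_finite (k : ℕ) : volume (cut (k, 1)) ≠ ⊤ := by
  have : cut (k, 1) ⊆ Icc ((0, 0) : ℝ × ℝ) ((k : ℝ) ^ 2, (k : ℝ) ^ 2) := by
    rintro q ⟨h1, h2, h3⟩
    refine ⟨⟨h1, h2⟩, ⟨?_, ?_⟩⟩
    · by_contra hcon
      push Not at hcon
      exact h3 (W_of_left (a := (k, 1)) one_pos (by simp only [one_mul]; exact hcon.le) h2)
    · by_contra hcon
      push Not at hcon
      exact h3 (W_of_right (a := (k, 1)) one_pos (by simp only [one_mul]; exact hcon.le) h1)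
  exact measure_ne_top_of_subset this isCompact_Icc.measure_lt_top.ne

theorem area_lower {k : ℕ} (hk : 0 < k) : (k : ℝ) ^ 4 / 16 ≤ volume.real (cut (k, 1)) := by
  have hk' : (0 : ℝ) < k := by exact_mod_cast hk
  have hsub : Ico (0 : ℝ) ((k : ℝ) ^ 2 / 4) ×ˢ Ico (0 : ℝ) ((k : ℝ) ^ 2 / 4) ⊆ cut (k, 1) := by
    rintro q ⟨⟨h1, h2⟩, ⟨h3, h4⟩⟩
    refine ⟨h1, h3, fun hW => ?_⟩
    have h5 := hW.2.2 (k / 2) (Nat.div_lt_self hk (by norm_num))
    simp only [one_mul, rhs] at h5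
    have hcases : (k : ℝ) = 2 * ((k / 2 : ℕ) : ℝ) ∨ (k : ℝ) = 2 * ((k / 2 : ℕ) : ℝ) + 1 := by
      rcases Nat.even_or_odd' k with ⟨r, h | h⟩
      · left
        have : k / 2 = r := by omega
        rw [this]; exact_mod_cast h
      · right
        have : k / 2 = r := by omega
        rw [this]; exact_mod_cast h
    set i : ℝ := ((k / 2 : ℕ) : ℝ) with hi
    have hi0 : 0 ≤ i := by positivity
    have c1 : 0 ≤ 2 * (k : ℝ) - 2 * i - 1 := by
      rcases hcases with h | h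
      · have : (1 : ℝ) ≤ k := by exact_mod_cast hk
        linarith
      · linarith
    have c2 : 0 < 2 * i + 1 := by positivity
    have f1 : (2 * (k : ℝ) - 2 * i - 1) * q.1 ≤ (2 * (k : ℝ) - 2 * i - 1) * ((k : ℝ) ^ 2 / 4) :=
      mul_le_mul_of_nonneg_left h2.le c1
    have f2 : (2 * i + 1) * q.2 < (2 * i + 1) * ((k : ℝ) ^ 2 / 4) :=
      mul_lt_mul_of_pos_left h4 c2
    have f3 : (k : ℝ) * ((2 * i + 1) * k - 2 * i * (i + 1)) < k * ((k : ℝ) ^ 2 / 2) := by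
      calc _ ≤ _ := h5
        _ < (2 * (k : ℝ) - 2 * i - 1) * ((k : ℝ) ^ 2 / 4) + (2 * i + 1) * ((k : ℝ) ^ 2 / 4) := by
          linarith
        _ = _ := by ring
    have f4 := lt_of_mul_lt_mul_left f3 hk'.le
    rcases hcases with h | h
    · rw [h] at f4
      nlinarith
    · rw [h] at f4
      nlinarith
  have h1 : volume.real (Ico (0 : ℝ) ((k : ℝ) ^ 2 / 4) ×ˢ Ico (0 : ℝ) ((k : ℝ) ^ 2 / 4)) =
      (k : ℝ) ^ 4 / 16 := by
    have h2 : (0 : ℝ) ≤ (k : ℝ) ^ 2 / 4 - 0 := by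
      rw [sub_zero]; positivity
    rw [measureReal_def, Measure.volume_eq_prod, Measure.prod_prod, Real.volume_Ico,
      ENNReal.toReal_mul, ENNReal.toReal_ofReal h2]
    ring
  rw [← h1]
  exact measureReal_mono hsub (cut_finite k)

theorem exists_adm {k : ℕ} (hk : 0 < k) : ∃ γ : ℝ, Adm (k, γ) ∧
    volume.real (cut (k, γ)) = 1 / 64 := by
  have hk' : (0 : ℝ) < k := by exact_mod_cast hk
  have hlow := area_lower hk
  have hpos : 0 < volume.real (cut (k, 1)) := lt_of_lt_of_le (by positivity) hlow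
  set A := volume.real (cut (k, 1)) with hA
  have hq : 0 < 1 / 64 / A := by positivity
  refine ⟨Real.sqrt (1 / 64 / A), ⟨hk, ?_, ?_⟩, ?_⟩
  · exact Real.sqrt_pos.2 hq
  · show Real.sqrt (1 / 64 / A) * (k : ℝ) ^ 2 ≤ 1 / 2
    have h1 : Real.sqrt (1 / 64 / A) ≤ 1 / (2 * (k : ℝ) ^ 2) := by
      apply Real.sqrt_le_iff.2
      refine ⟨by positivity, ?_⟩
      rw [div_div, div_pow, one_pow]
      have h2 : (0 : ℝ) < (2 * (k : ℝ) ^ 2) ^ 2 := by positivity
      apply one_div_le_one_div_of_le h2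
      have : (2 * (k : ℝ) ^ 2) ^ 2 = 64 * ((k : ℝ) ^ 4 / 16) := by ring
      rw [this]
      linarith
    calc Real.sqrt (1 / 64 / A) * (k : ℝ) ^ 2 ≤ 1 / (2 * (k : ℝ) ^ 2) * (k : ℝ) ^ 2 := by gcongr
      _ = 1 / 2 := by field_simp
  · rw [area_scale (Real.sqrt_pos.2 hq), Real.sq_sqrt hq.le, ← hA]
    field_simp

theorem large {n : ℕ} (hn : 4 ≤ n) :
    ∃ R : Set (ℝ × ℝ), IsConvexGon (2 * n + 1) R ∧ numQuadrisections R = ⊤ := by
  obtain ⟨γ, hγ, vγ⟩ := exists_adm (k := 2 * n - 6) (by omega)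
  obtain ⟨ε, hε, vε⟩ := exists_adm (k := 1) one_pos
  refine ⟨B (2 * n - 6, γ) (1, ε) (1, ε) (1, ε), ?_, ?_⟩
  · convert isConvexGon_B hγ hε hε hε using 1
    show 2 * n + 1 = (2 * n - 6 + 1) + (1 + 1) + (1 + 1) + (1 + 1)
    omega
  · have h1 : (Ioo (0 : ℝ) (1 / 2)).encard = ⊤ := (Set.Ioo_infinite (by norm_num)).encard_eq
    rw [eq_top_iff, ← h1]
    apply encard_slopes_le
    · rintro m ⟨h2, h3⟩
      exact ⟨by linarith, by linarith⟩
    · rintro m ⟨h2, h3⟩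
      exact hasSlope_B hγ hε hε hε vγ vε vε vε h2 h3

end Pool.Agent.MP79dd7e
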