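import Pool.Agent.MP79dd7e.Bisect

set_option autoImplicit false

namespace Pool.Agent.MP79dd7e

open MeasureTheory Set Filter Topology

variable {R : Set (ℝ × ℝ)}

/-- The unordered pair of perpendicular lines with slope parameter `m` and offsets `s`, `t`. -/
def pairOf (m s t : ℝ) : Sym2 (Set (ℝ × ℝ)) := s({x | fA m x = s}, {x | fB m x = t})

/-- The meeting point of the two lines. -/
noncomputable def meet (m s t : ℝ) : ℝ × ℝ :=
  ((t - m * s) / (1 + m ^ 2), (s + m * t) / (1 + m ^ 2))

theorem one_add_sq_pos (m : ℝ) : 0 < 1 + m ^ 2 := by positivity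

theorem dot_u (m s t : ℝ) (x : ℝ × ℝ) : dot (-m, 1) (x - meet m s t) = fA m x - s := by
  have := one_add_sq_pos m
  simp only [dot, meet, fA, Prod.fst_sub, Prod.snd_sub]
  field_simp
  ring

theorem dot_w (m s t : ℝ) (x : ℝ × ℝ) : dot (1, m) (x - meet m s t) = fB m x - t := by
  have := one_add_sq_pos m
  simp only [dot, meet, fB, Prod.fst_sub, Prod.snd_sub]
  field_simp
  ring

theorem dot_neg_left (u v : ℝ × ℝ) : dot (-u) v = - dot u v := by
  simp only [dot, Prod.fst_neg, Prod.snd_neg]; ring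

theorem line_u (m s t : ℝ) : line (meet m s t) (-m, 1) = {x | fA m x = s} := by
  ext x
  simp only [line, mem_ofPred_eq, dot_u, sub_eq_zero]

theorem line_w (m s t : ℝ) : line (meet m s t) (1, m) = {x | fB m x = t} := by
  ext x
  simp only [line, mem_ofPred_eq, dot_w, sub_eq_zero]

theorem mem_interior_of_four (h : Body R) {m s t : ℝ}
    (h1 : ∃ a ∈ R, s < fA m a ∧ t < fB m a) (h2 : ∃ a ∈ R, s < fA m a ∧ fB m a < t)
    (h3 : ∃ a ∈ R, fA m a < s ∧ t < fB m a) (h4 : ∃ a ∈ R, fA m a < s ∧ fB m a < t) :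
    meet m s t ∈ interior R := by
  by_contra hcon
  obtain ⟨f, hf⟩ := geometric_hahn_banach_open_point h.convex.interior isOpen_interior hcon
  have hcl : closure (interior R) = R := by
    rw [h.convex.closure_interior_eq_closure_of_nonempty_interior h.int,
      h.compact.isClosed.closure_eq]
  have hle : ∀ a ∈ R, f a ≤ f (meet m s t) := by
    intro a ha
    have h5 : closure (interior R) ⊆ {x | f x ≤ f (meet m s t)} :=
      closure_minimal (fun x hx => (hf x hx).le) (isClosed_le f.continuous continuous_const)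
    rw [hcl] at h5
    exact h5 ha
  have key : ∀ x : ℝ × ℝ, (1 + m ^ 2) * (f x - f (meet m s t)) =
      (fA m x - s) * f (-m, 1) + (fB m x - t) * f (1, m) := by
    intro x
    have hx : (1 + m ^ 2) • (x - meet m s t) = (fA m x - s) • ((-m, 1) : ℝ × ℝ) +
        (fB m x - t) • ((1, m) : ℝ × ℝ) := by
      have := one_add_sq_pos m
      ext
      · simp only [meet, fA, fB, Prod.smul_fst, Prod.fst_sub, Prod.fst_add, smul_eq_mul]
        field_simp
        ring
      · simp only [meet, fA, fB, Prod.smul_snd, Prod.snd_sub, Prod.snd_add, smul_eq_mul]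
        field_simp
        ring
    have h6 := congrArg f hx
    rw [map_smul, map_add, map_smul, map_smul, map_sub, smul_eq_mul, smul_eq_mul,
      smul_eq_mul] at h6
    exact h6
  obtain ⟨c, hc⟩ := h.int
  have hcs := hf c hc
  have hpos := one_add_sq_pos m
  have kc := key c
  have hnz : ¬ (f (-m, 1) = 0 ∧ f (1, m) = 0) := by
    rintro ⟨h7, h8⟩
    rw [h7, h8] at kc
    nlinarith
  obtain ⟨a1, ha1, ha1s, ha1t⟩ := h1
  obtain ⟨a2, ha2, ha2s, ha2t⟩ := h2
  obtain ⟨a3, ha3, ha3s, ha3t⟩ := h3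
  obtain ⟨a4, ha4, ha4s, ha4t⟩ := h4
  have k1 := key a1
  have k2 := key a2
  have k3 := key a3
  have k4 := key a4
  have l1 := hle a1 ha1
  have l2 := hle a2 ha2
  have l3 := hle a3 ha3
  have l4 := hle a4 ha4
  apply hnz
  generalize f (-m, 1) = α at *
  generalize f (1, m) = β at *
  have n1 : (fA m a1 - s) * α + (fB m a1 - t) * β ≤ 0 := by rw [← k1]; nlinarith
  have n2 : (fA m a2 - s) * α + (fB m a2 - t) * β ≤ 0 := by rw [← k2]; nlinarith
  have n3 : (fA m a3 - s) * α + (fB m a3 - t) * β ≤ 0 := by rw [← k3]; nlinarith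
  have n4 : (fA m a4 - s) * α + (fB m a4 - t) * β ≤ 0 := by rw [← k4]; nlinarith
  rcases lt_trichotomy α 0 with hα | hα | hα <;> rcases lt_trichotomy β 0 with hβ | hβ | hβ
  · exfalso
    have := mul_pos_of_neg_of_neg (sub_neg.2 ha4s) hα
    have := mul_pos_of_neg_of_neg (sub_neg.2 ha4t) hβ
    linarith
  · exfalso
    have := mul_pos_of_neg_of_neg (sub_neg.2 ha4s) hα
    rw [hβ] at n4
    linarith
  · exfalso
    have := mul_pos_of_neg_of_neg (sub_neg.2 ha3s) hα
    have := mul_pos (sub_pos.2 ha3t) hβ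
    linarith
  · exfalso
    have := mul_pos_of_neg_of_neg (sub_neg.2 ha2t) hβ
    rw [hα] at n2
    linarith
  · exact ⟨hα, hβ⟩
  · exfalso
    have := mul_pos (sub_pos.2 ha1t) hβ
    rw [hα] at n1
    linarith
  · exfalso
    have := mul_pos (sub_pos.2 ha2s) hα
    have := mul_pos_of_neg_of_neg (sub_neg.2 ha2t) hβ
    linarith
  · exfalso
    have := mul_pos (sub_pos.2 ha1s) hα
    rw [hβ] at n1
    linarith
  · exfalso
    have := mul_pos (sub_pos.2 ha1s) hα
    have := mul_pos (sub_pos.2 ha1t) hβ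
    linarith

theorem ae_ne_A (m s : ℝ) : ∀ᵐ x : ℝ × ℝ, fA m x ≠ s := by
  rw [ae_iff]; simpa using null_fA m s

theorem ae_ne_B (m t : ℝ) : ∀ᵐ x : ℝ × ℝ, fB m x ≠ t := by
  rw [ae_iff]; simpa using null_fB m t

/-- Sets defined by conditions that agree off the two lines have the same area. -/
theorem real_congr (R : Set (ℝ × ℝ)) (m s t : ℝ) {P Q : ℝ × ℝ → Prop}
    (hPQ : ∀ x, fA m x ≠ s → fB m x ≠ t → (P x ↔ Q x)) :
    volume.real (R ∩ {x | P x}) = volume.real (R ∩ {x | Q x}) := by
  have h : volume (R ∩ {x | P x}) = volume (R ∩ {x | Q x}) := by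
    apply measure_congr
    filter_upwards [ae_ne_A m s, ae_ne_B m t] with x hx hx'
    apply propext
    show (x ∈ R ∩ {x | P x}) ↔ (x ∈ R ∩ {x | Q x})
    simp only [mem_inter_iff, mem_ofPred_eq, hPQ x hx hx']
  rw [Measure.real, Measure.real, h]

theorem meas_A (m s : ℝ) : MeasurableSet {x : ℝ × ℝ | fA m x ≤ s} :=
  measurableSet_le (continuous_fA' m).measurable measurable_const

theorem meas_B (m t : ℝ) : MeasurableSet {x : ℝ × ℝ | fB m x ≤ t} :=
  measurableSet_le (continuous_fB' m).measurable measurable_const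

theorem split_real (h : Body R) (S : Set (ℝ × ℝ)) {T : Set (ℝ × ℝ)} (hT : MeasurableSet T) :
    volume.real (R ∩ S) = volume.real (R ∩ (S ∩ T)) + volume.real (R ∩ (S \ T)) := by
  have h1 := measureReal_inter_add_sdiff (μ := volume) (s := R ∩ S) hT
    (measure_ne_top_of_subset inter_subset_left h.finite)
  rw [← h1]
  congr 2
  · rw [inter_assoc]
  · rw [inter_sdiff_assoc]

/-- Areas of the four pieces. -/
theorem four_pieces (h : Body R) {m s t : ℝ} (hA : cutA R m s = volume.real R / 2)
    (hB : cutB R m t = volume.real R / 2) :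
    volume.real (R ∩ {x | fA m x ≤ s ∧ t < fB m x}) =
      volume.real R / 2 - volume.real (R ∩ {x | fA m x ≤ s ∧ fB m x ≤ t}) ∧
    volume.real (R ∩ {x | s < fA m x ∧ fB m x ≤ t}) =
      volume.real R / 2 - volume.real (R ∩ {x | fA m x ≤ s ∧ fB m x ≤ t}) ∧
    volume.real (R ∩ {x | s < fA m x ∧ t < fB m x}) =
      volume.real (R ∩ {x | fA m x ≤ s ∧ fB m x ≤ t}) := by
  unfold cutA at hA
  unfold cutB at hB
  have e1 := split_real h {x | fA m x ≤ s} (meas_B m t)
  have e2 := split_real h {x | fB m x ≤ t} (meas_A m s)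
  have e3 := split_real h univ (meas_A m s)
  have e4 := split_real h {x | s < fA m x} (meas_B m t)
  rw [inter_univ, univ_inter] at e3
  have s1 : ({x | fA m x ≤ s} ∩ {x | fB m x ≤ t} : Set (ℝ × ℝ)) =
      {x | fA m x ≤ s ∧ fB m x ≤ t} := rfl
  have s2 : ({x | fA m x ≤ s} \ {x | fB m x ≤ t} : Set (ℝ × ℝ)) =
      {x | fA m x ≤ s ∧ t < fB m x} := by
    ext x; simp
  have s3 : ({x | fB m x ≤ t} ∩ {x | fA m x ≤ s} : Set (ℝ × ℝ)) =
      {x | fA m x ≤ s ∧ fB m x ≤ t} := by
    ext x; simp [and_comm]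
  have s4 : ({x | fB m x ≤ t} \ {x | fA m x ≤ s} : Set (ℝ × ℝ)) =
      {x | s < fA m x ∧ fB m x ≤ t} := by
    ext x; simp [and_comm]
  have s5 : (univ \ {x | fA m x ≤ s} : Set (ℝ × ℝ)) = {x | s < fA m x} := by
    ext x; simp
  have s6 : ({x | s < fA m x} ∩ {x | fB m x ≤ t} : Set (ℝ × ℝ)) =
      {x | s < fA m x ∧ fB m x ≤ t} := rfl
  have s7 : ({x | s < fA m x} \ {x | fB m x ≤ t} : Set (ℝ × ℝ)) =
      {x | s < fA m x ∧ t < fB m x} := by
    ext x; simp
  rw [s1, s2] at e1
  rw [s3, s4] at e2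
  rw [s5] at e3
  rw [s6, s7] at e4
  refine ⟨?_, ?_, ?_⟩ <;> linarith

theorem isQuadrisection_of (h : Body R) {m s t : ℝ} (hA : cutA R m s = volume.real R / 2)
    (hB : cutB R m t = volume.real R / 2) (hG : quad R m s t = volume.real R / 4) :
    IsQuadrisection R (pairOf m s t) := by
  obtain ⟨p1, p2, p3⟩ := four_pieces h hA hB
  unfold quad at hG
  rw [hG] at p1 p2 p3
  have hV := h.pos
  -- open quadrants
  have q1 : volume.real (R ∩ {x | s < fA m x ∧ t < fB m x}) = volume.real R / 4 := p3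
  have q2 : volume.real (R ∩ {x | s < fA m x ∧ fB m x < t}) = volume.real R / 4 := by
    rw [real_congr R m s t (Q := fun x => s < fA m x ∧ fB m x ≤ t)
      (fun x _ h2 => by rw [lt_iff_le_and_ne (a := fB m x)]; tauto), p2]
    ring
  have q3 : volume.real (R ∩ {x | fA m x < s ∧ t < fB m x}) = volume.real R / 4 := by
    rw [real_congr R m s t (Q := fun x => fA m x ≤ s ∧ t < fB m x)
      (fun x h1 _ => by rw [lt_iff_le_and_ne (a := fA m x)]; tauto), p1]
    ring
  have q4 : volume.real (R ∩ {x | fA m x < s ∧ fB m x < t}) = volume.real R / 4 := by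
    rw [real_congr R m s t (Q := fun x => fA m x ≤ s ∧ fB m x ≤ t)
      (fun x h1 h2 => by
        rw [lt_iff_le_and_ne (a := fA m x), lt_iff_le_and_ne (a := fB m x)]; tauto), hG]
  have ne_of : ∀ {S : Set (ℝ × ℝ)}, volume.real (R ∩ S) = volume.real R / 4 →
      ∃ a ∈ R, a ∈ S := by
    intro S hS
    by_contra hcon
    push Not at hcon
    have : R ∩ S = ∅ := by
      ext x
      simp only [mem_inter_iff, mem_empty_iff_false, iff_false, not_and]
      exact hcon x
    rw [this] at hS
    simp at hS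
    linarith
  have conv : ∀ {S : Set (ℝ × ℝ)}, volume.real (R ∩ S) = volume.real R / 4 →
      volume (R ∩ S) = volume R / 4 := by
    intro S hS
    have hfin := measure_ne_top_of_subset (inter_subset_left (s := R) (t := S)) h.finite
    rw [← ENNReal.ofReal_toReal hfin, ← ENNReal.ofReal_toReal h.finite]
    have h4 : (4 : ENNReal) = ENNReal.ofReal 4 := by norm_num
    rw [h4, ← ENNReal.ofReal_div_of_pos (by norm_num)]
    congr 1
  refine ⟨meet m s t, (-m, 1), (1, m), ?_, ?_, ?_, ?_, ?_, ?_, ?_, ?_, ?_⟩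
  · intro h0
    have := congrArg Prod.snd h0
    simp at this
  · intro h0
    have := congrArg Prod.fst h0
    simp at this
  · simp [dot]
  · exact mem_interior_of_four h (ne_of q1) (ne_of q2) (ne_of q3) (ne_of q4)
  · rw [line_u, line_w]; rfl
  · apply conv
    have : quadrant (meet m s t) (-m, 1) (1, m) = {x | s ≤ fA m x ∧ t ≤ fB m x} := by
      ext x; simp only [quadrant, mem_ofPred_eq, dot_u, dot_w, sub_nonneg]
    rw [this, ← q1]
    exact real_congr R m s t (fun x h1 h2 => by
      rw [lt_iff_le_and_ne (a := s), lt_iff_le_and_ne (a := t)]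
      have := h1.symm
      have := h2.symm
      tauto)
  · apply conv
    have : quadrant (meet m s t) (-(-m, 1)) (1, m) = {x | fA m x ≤ s ∧ t ≤ fB m x} := by
      ext x
      simp only [quadrant, mem_ofPred_eq, dot_neg_left, dot_u, dot_w, sub_nonneg]
      constructor <;> rintro ⟨h1, h2⟩ <;> exact ⟨by linarith, h2⟩
    rw [this, ← q3]
    exact real_congr R m s t (fun x h1 h2 => by
      rw [lt_iff_le_and_ne (a := fA m x), lt_iff_le_and_ne (a := t)]
      have := h2.symm
      tauto)
  · apply conv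
    have : quadrant (meet m s t) (-m, 1) (-(1, m)) = {x | s ≤ fA m x ∧ fB m x ≤ t} := by
      ext x
      simp only [quadrant, mem_ofPred_eq, dot_neg_left, dot_u, dot_w, sub_nonneg]
      constructor <;> rintro ⟨h1, h2⟩ <;> exact ⟨h1, by linarith⟩
    rw [this, ← q2]
    exact real_congr R m s t (fun x h1 h2 => by
      rw [lt_iff_le_and_ne (a := fB m x), lt_iff_le_and_ne (a := s)]
      have := h1.symm
      tauto)
  · apply conv
    have : quadrant (meet m s t) (-(-m, 1)) (-(1, m)) = {x | fA m x ≤ s ∧ fB m x ≤ t} := by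
      ext x
      simp only [quadrant, mem_ofPred_eq, dot_neg_left, dot_u, dot_w]
      constructor <;> rintro ⟨h1, h2⟩ <;> exact ⟨by linarith, by linarith⟩
    rw [this, hG]

/-- `m` is the slope of one of the two lines of a quadrisection. -/
def HasSlope (R : Set (ℝ × ℝ)) (m : ℝ) : Prop := ∃ s t, IsQuadrisection R (pairOf m s t)

theorem exists_profile (h : Body R) : ∃ G : ℝ → ℝ, Continuous G ∧
    (∀ m, G m = volume.real R / 4 → HasSlope R m) ∧
    (∀ m s t, volume.real R / 2 ≤ volume.real (R ∩ {x | s ≤ fA m x}) →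
      volume.real R / 2 ≤ volume.real (R ∩ {x | t ≤ fB m x}) →
      volume.real R / 4 < volume.real (R ∩ {x | fA m x ≤ s ∧ fB m x ≤ t}) →
      volume.real R / 4 < G m) ∧
    (∀ m s t, volume.real R / 2 ≤ volume.real (R ∩ {x | s ≤ fA m x}) →
      volume.real R / 2 ≤ volume.real (R ∩ {x | fB m x ≤ t}) →
      volume.real R / 4 < volume.real (R ∩ {x | fA m x ≤ s ∧ t ≤ fB m x}) →
      G m < volume.real R / 4) := by
  obtain ⟨σ, hσc, hσ, hσ1, hσ2⟩ := exists_bisector h fam_fA (continuous_cutA h.compact)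
  obtain ⟨τ, hτc, hτ, hτ1, hτ2⟩ := exists_bisector h fam_fB (continuous_cutB h.compact)
  refine ⟨fun m => quad R m (σ m) (τ m), ?_, ?_, ?_, ?_⟩
  · exact (continuous_quad h.compact).comp (continuous_id.prodMk (hσc.prodMk hτc))
  · intro m hm
    exact ⟨σ m, τ m, isQuadrisection_of h (hσ m) (hτ m) hm⟩
  · intro m s t h1 h2 h3
    have e1 := split_real h univ (meas_A m s)
    have e2 := split_real h univ (meas_B m t)
    rw [inter_univ, univ_inter] at e1 e2
    have s1 : volume.real (R ∩ (univ \ {x | fA m x ≤ s})) =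
        volume.real (R ∩ {x | s ≤ fA m x}) := by
      have : (univ \ {x | fA m x ≤ s} : Set (ℝ × ℝ)) = {x | s < fA m x} := by
        ext x; simp
      rw [this]
      exact real_congr R m s t (fun x h1 _ => by
        rw [lt_iff_le_and_ne (a := s)]
        have := h1.symm
        tauto)
    have s2 : volume.real (R ∩ (univ \ {x | fB m x ≤ t})) =
        volume.real (R ∩ {x | t ≤ fB m x}) := by
      have : (univ \ {x | fB m x ≤ t} : Set (ℝ × ℝ)) = {x | t < fB m x} := by
        ext x; simp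
      rw [this]
      exact real_congr R m s t (fun x _ h1 => by
        rw [lt_iff_le_and_ne (a := t)]
        have := h1.symm
        tauto)
    rw [s1] at e1
    rw [s2] at e2
    have hs := hσ1 m s (by linarith)
    have ht := hτ1 m t (by linarith)
    refine lt_of_lt_of_le h3 (real_mono h ?_ inter_subset_left)
    rintro x ⟨hx, hx1, hx2⟩
    exact ⟨hx, hx1.trans hs, hx2.trans ht⟩
  · intro m s t h1 h2 h3
    have e1 := split_real h univ (meas_A m s)
    rw [inter_univ, univ_inter] at e1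
    have s1 : volume.real (R ∩ (univ \ {x | fA m x ≤ s})) =
        volume.real (R ∩ {x | s ≤ fA m x}) := by
      have : (univ \ {x | fA m x ≤ s} : Set (ℝ × ℝ)) = {x | s < fA m x} := by
        ext x; simp
      rw [this]
      exact real_congr R m s t (fun x h1 _ => by
        rw [lt_iff_le_and_ne (a := s)]
        have := h1.symm
        tauto)
    rw [s1] at e1
    have hs := hσ1 m s (by linarith)
    have ht := hτ2 m t h2
    have hlt : volume.real R / 4 <
        volume.real (R ∩ {x | fA m x ≤ σ m ∧ τ m ≤ fB m x}) := by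
      refine lt_of_lt_of_le h3 (real_mono h ?_ inter_subset_left)
      rintro x ⟨hx, hx1, hx2⟩
      exact ⟨hx, hx1.trans hs, ht.trans hx2⟩
    have s3 : volume.real (R ∩ {x | fA m x ≤ σ m ∧ τ m ≤ fB m x}) =
        volume.real (R ∩ {x | fA m x ≤ σ m ∧ τ m < fB m x}) :=
      real_congr R m (σ m) (τ m) (fun x _ h1 => by
        rw [lt_iff_le_and_ne (a := τ m)]
        have := h1.symm
        tauto)
    obtain ⟨p1, _, _⟩ := four_pieces h (hσ m) (hτ m)
    rw [s3, p1] at hlt
    show quad R m (σ m) (τ m) < volume.real R / 4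
    unfold quad
    linarith

end Pool.Agent.MP79dd7e
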