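import Pool.Agent.MP79dd7e.Small

set_option autoImplicit false

namespace Pool.Agent.MP79dd7e

open MeasureTheory Set Filter Topology

theorem double_count {R : Set (ℝ × ℝ)} (hR : refl ⁻¹' R = R) (hm : MeasurableSet R) {k : ℕ}
    (m : Fin k → ℝ) (hinj : StrictMono m) (h0 : ∀ i, 0 < m i) (h1 : ∀ i, m i < 1)
    (hs : ∀ i, HasSlope R (m i)) : ((2 * k : ℕ) : ℕ∞) ≤ numQuadrisections R := by
  set f : Fin k ⊕ Fin k → ℝ := Sum.elim m (fun i => - m i) with hf
  have hfinj : Function.Injective f := by
    rintro (i | i) (j | j) h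
    · simp only [hf, Sum.elim_inl] at h
      rw [hinj.injective h]
    · simp only [hf, Sum.elim_inl, Sum.elim_inr] at h
      have := h0 i
      have := h0 j
      linarith
    · simp only [hf, Sum.elim_inl, Sum.elim_inr] at h
      have := h0 i
      have := h0 j
      linarith
    · simp only [hf, Sum.elim_inr, neg_inj] at h
      rw [hinj.injective h]
  have hcard : ((2 * k : ℕ) : ℕ∞) ≤ (range f).encard := by
    have := hfinj.encard_range
    rwa [ENat.card_eq_coe_fintype_card, Fintype.card_sum, Fintype.card_fin, ← two_mul] at this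
  refine hcard.trans ?_
  apply encard_slopes_le
  · rintro _ ⟨i | i, rfl⟩
    · simp only [hf, Sum.elim_inl]
      exact ⟨by linarith [h0 i], h1 i⟩
    · simp only [hf, Sum.elim_inr]
      exact ⟨by linarith [h1 i], by linarith [h0 i]⟩
  · rintro _ ⟨i | i, rfl⟩
    · simp only [hf, Sum.elim_inl]
      exact hs i
    · simp only [hf, Sum.elim_inr]
      exact (hs i).neg hR hm

theorem pentagon : ∃ R : Set (ℝ × ℝ), IsConvexGon 5 R ∧ 5 < numQuadrisections R := by
  obtain ⟨hb, hg, hV, hR⟩ := chkGon_spec pent_chk
  rw [pent_area] at hV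
  obtain ⟨G, hc, hG, hp, hm⟩ := exists_profile hb
  have s1 := minus_of hb hV hm pent_1
  have s2 := plus_of hb hV hp pent_2
  have s3 := minus_of hb hV hm pent_3
  have s4 := plus_of hb hV hp pent_4
  push_cast at s1 s2 s3 s4
  obtain ⟨m1, a1, b1, c1⟩ := slope_between hc hG (by norm_num) (Or.inl ⟨s1, s2⟩)
  obtain ⟨m2, a2, b2, c2⟩ := slope_between hc hG (by norm_num) (Or.inr ⟨s2, s3⟩)
  obtain ⟨m3, a3, b3, c3⟩ := slope_between hc hG (by norm_num) (Or.inl ⟨s3, s4⟩)
  refine ⟨Reg pentC, hg, ?_⟩
  have := double_count hR (isClosed_Reg pentC).measurableSet ![m1, m2, m3] (by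
      rw [Fin.strictMono_iff_lt_succ]
      intro i
      fin_cases i
      · exact b1.trans a2
      · exact b2.trans a3) (by
      intro i
      fin_cases i
      · show 0 < m1
        linarith
      · show 0 < m2
        linarith
      · show 0 < m3
        linarith) (by
      intro i
      fin_cases i
      · show m1 < 1
        linarith
      · show m2 < 1
        linarith
      · show m3 < 1
        linarith) (by
      intro i
      fin_cases i
      · exact c1
      · exact c2
      · exact c3)
  refine lt_of_lt_of_le ?_ this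
  norm_num

theorem heptagon : ∃ R : Set (ℝ × ℝ), IsConvexGon 7 R ∧ 7 < numQuadrisections R := by
  obtain ⟨hb, hg, hV, hR⟩ := chkGon_spec hept_chk
  rw [hept_area] at hV
  obtain ⟨G, hc, hG, hp, hm⟩ := exists_profile hb
  have s1 := minus_of hb hV hm hept_1
  have s2 := plus_of hb hV hp hept_2
  have s3 := minus_of hb hV hm hept_3
  have s4 := plus_of hb hV hp hept_4
  have s5 := minus_of hb hV hm hept_5
  push_cast at s1 s2 s3 s4 s5
  obtain ⟨m1, a1, b1, c1⟩ := slope_between hc hG (by norm_num) (Or.inl ⟨s1, s2⟩)
  obtain ⟨m2, a2, b2, c2⟩ := slope_between hc hG (by norm_num) (Or.inr ⟨s2, s3⟩)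
  obtain ⟨m3, a3, b3, c3⟩ := slope_between hc hG (by norm_num) (Or.inl ⟨s3, s4⟩)
  obtain ⟨m4, a4, b4, c4⟩ := slope_between hc hG (by norm_num) (Or.inr ⟨s4, s5⟩)
  refine ⟨Reg heptC, hg, ?_⟩
  have := double_count hR (isClosed_Reg heptC).measurableSet ![m1, m2, m3, m4] (by
      rw [Fin.strictMono_iff_lt_succ]
      intro i
      fin_cases i
      · exact b1.trans a2
      · exact b2.trans a3
      · exact b3.trans a4) (by
      intro i
      fin_cases i
      · show 0 < m1
        linarith
      · show 0 < m2
        linarith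
      · show 0 < m3
        linarith
      · show 0 < m4
        linarith) (by
      intro i
      fin_cases i
      · show m1 < 1
        linarith
      · show m2 < 1
        linarith
      · show m3 < 1
        linarith
      · show m4 < 1
        linarith) (by
      intro i
      fin_cases i
      · exact c1
      · exact c2
      · exact c3
      · exact c4)
  refine lt_of_lt_of_le ?_ this
  norm_num

end Pool.Agent.MP79dd7e
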