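import Pool.Agent.MP79dd7e.Gon

set_option autoImplicit false

namespace Pool.Agent.MP79dd7e

open MeasureTheory Set Filter Topology

/-- The right-hand side of the `i`-th chord. -/
def rhs (k i : ℕ) : ℝ := k * ((2 * i + 1) * k - 2 * i * (i + 1))

/-- The region above the chain of `k` chords through the points `γ (i², (k - i)²)`. -/
def W (a : ℕ × ℝ) : Set (ℝ × ℝ) :=
  {q | 0 ≤ q.1 ∧ 0 ≤ q.2 ∧ ∀ i : ℕ, i < a.1 →
    a.2 * rhs a.1 i ≤ (2 * a.1 - 2 * i - 1) * q.1 + (2 * i + 1) * q.2}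

/-- The `i`-th vertex of the chain. -/
def P (a : ℕ × ℝ) (i : ℕ) : ℝ × ℝ := (a.2 * (i : ℝ) ^ 2, a.2 * ((a.1 : ℝ) - i) ^ 2)

/-- The vertices of the chain. -/
def F (a : ℕ × ℝ) : Set (ℝ × ℝ) := {q | ∃ i : ℕ, i ≤ a.1 ∧ q = P a i}

theorem chord_at (a : ℕ × ℝ) (i j : ℕ) :
    (2 * a.1 - 2 * i - 1) * (P a j).1 + (2 * i + 1) * (P a j).2 - a.2 * rhs a.1 i =
      2 * a.2 * a.1 * (((j : ℝ) - i) * ((j : ℝ) - (i + 1))) := by
  unfold P rhs; ring

theorem nat_prod_nonneg (i j : ℕ) : 0 ≤ ((j : ℝ) - i) * ((j : ℝ) - (i + 1)) := by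
  rcases Nat.lt_or_ge i j with h | h
  · have : (i : ℝ) + 1 ≤ j := by exact_mod_cast h
    exact mul_nonneg (by linarith) (by linarith)
  · have : (j : ℝ) ≤ i := by exact_mod_cast h
    exact mul_nonneg_of_nonpos_of_nonpos (by linarith) (by linarith)

theorem F_subset_W {a : ℕ × ℝ} (ha : 0 < a.2) : F a ⊆ W a := by
  rintro q ⟨j, hj, rfl⟩
  refine ⟨by unfold P; positivity, by unfold P; positivity, fun i _ => ?_⟩
  have h1 := chord_at a i j
  have h2 : 0 ≤ 2 * a.2 * a.1 * (((j : ℝ) - i) * ((j : ℝ) - (i + 1))) :=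
    mul_nonneg (by positivity) (nat_prod_nonneg i j)
  linarith

theorem convex_W (a : ℕ × ℝ) : Convex ℝ (W a) := by
  intro x hx y hy s t hs ht hst
  refine ⟨?_, ?_, fun i hi => ?_⟩
  · simp only [Prod.fst_add, Prod.smul_fst, smul_eq_mul]
    have := mul_nonneg hs hx.1
    have := mul_nonneg ht hy.1
    linarith
  · simp only [Prod.snd_add, Prod.smul_snd, smul_eq_mul]
    have := mul_nonneg hs hx.2.1
    have := mul_nonneg ht hy.2.1
    linarith
  · have h1 := mul_le_mul_of_nonneg_left (hx.2.2 i hi) hs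
    have h2 := mul_le_mul_of_nonneg_left (hy.2.2 i hi) ht
    simp only [Prod.fst_add, Prod.smul_fst, Prod.snd_add, Prod.smul_snd, smul_eq_mul]
    have h3 : a.2 * rhs a.1 i = s * (a.2 * rhs a.1 i) + t * (a.2 * rhs a.1 i) := by
      rw [← add_mul, hst, one_mul]
    rw [h3]
    linarith

theorem isClosed_W (a : ℕ × ℝ) : IsClosed (W a) := by
  have : W a = {q : ℝ × ℝ | 0 ≤ q.1} ∩ ({q : ℝ × ℝ | 0 ≤ q.2} ∩ ⋂ i ∈ {i : ℕ | i < a.1},
      {q : ℝ × ℝ | a.2 * rhs a.1 i ≤ (2 * a.1 - 2 * i - 1) * q.1 + (2 * i + 1) * q.2}) := by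
    ext x
    simp only [W, mem_ofPred_eq, mem_inter_iff, mem_iInter]
  rw [this]
  refine (isClosed_le continuous_const continuous_fst).inter
    ((isClosed_le continuous_const continuous_snd).inter ?_)
  exact isClosed_biInter fun c _ => isClosed_le continuous_const (by fun_prop)

/-- Points that are far out in one coordinate are in `W`. -/
theorem W_of_left {a : ℕ × ℝ} (ha : 0 < a.2) {q : ℝ × ℝ} (h1 : a.2 * (a.1 : ℝ) ^ 2 ≤ q.1)
    (h2 : 0 ≤ q.2) : q ∈ W a := by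
  have hk : 0 ≤ a.2 * (a.1 : ℝ) ^ 2 := by positivity
  refine ⟨hk.trans h1, h2, fun i hi => ?_⟩
  have h3 := (F_subset_W ha ⟨a.1, le_rfl, rfl⟩ : P a a.1 ∈ W a).2.2 i hi
  have h4 : (P a a.1).1 = a.2 * (a.1 : ℝ) ^ 2 := rfl
  have h5 : (P a a.1).2 = 0 := by unfold P; simp
  rw [h4, h5] at h3
  have hi' : (i : ℝ) + 1 ≤ a.1 := by exact_mod_cast hi
  have h6 : 0 ≤ (2 * (a.1 : ℝ) - 2 * i - 1) := by linarith
  have h7 := mul_le_mul_of_nonneg_left h1 h6
  have h8 : 0 ≤ (2 * (i : ℝ) + 1) * q.2 := by positivity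
  linarith

theorem W_of_right {a : ℕ × ℝ} (ha : 0 < a.2) {q : ℝ × ℝ} (h1 : a.2 * (a.1 : ℝ) ^ 2 ≤ q.2)
    (h2 : 0 ≤ q.1) : q ∈ W a := by
  have hk : 0 ≤ a.2 * (a.1 : ℝ) ^ 2 := by positivity
  refine ⟨h2, hk.trans h1, fun i hi => ?_⟩
  have h3 := (F_subset_W ha ⟨0, Nat.zero_le _, rfl⟩ : P a 0 ∈ W a).2.2 i hi
  have h4 : (P a 0).1 = 0 := by unfold P; simp
  have h5 : (P a 0).2 = a.2 * (a.1 : ℝ) ^ 2 := by unfold P; simp
  rw [h4, h5] at h3
  have hi' : (i : ℝ) + 1 ≤ a.1 := by exact_mod_cast hi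
  have h6 : 0 ≤ (2 * (i : ℝ) + 1) := by positivity
  have h7 := mul_le_mul_of_nonneg_left h1 h6
  have h8 : 0 ≤ (2 * (a.1 : ℝ) - 2 * i - 1) * q.1 := mul_nonneg (by linarith) h2
  linarith

/-- Every point of `W` dominates a point of the hull of the chain. -/
theorem dominates {a : ℕ × ℝ} {q : ℝ × ℝ} (hq : q ∈ W a) :
    ∃ w ∈ convexHull ℝ (F a), w.1 ≤ q.1 ∧ w.2 ≤ q.2 := by
  obtain ⟨h1, h2, h3⟩ := hq
  rcases le_or_gt (a.2 * (a.1 : ℝ) ^ 2) q.1 with h | h
  · refine ⟨P a a.1, subset_convexHull ℝ _ ⟨a.1, le_rfl, rfl⟩, ?_, ?_⟩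
    · exact h
    · have h5 : (P a a.1).2 = 0 := by unfold P; simp
      rw [h5]; exact h2
  · -- the first index whose abscissa is beyond `q.1`
    have hex : ∃ i : ℕ, q.1 < a.2 * (i : ℝ) ^ 2 := ⟨a.1, h⟩
    classical
    set n := Nat.find hex with hn
    have hn1 : q.1 < a.2 * (n : ℝ) ^ 2 := Nat.find_spec hex
    have hn0 : n ≠ 0 := by
      intro h0
      rw [h0] at hn1
      norm_num at hn1
      linarith
    obtain ⟨i, hi⟩ := Nat.exists_eq_succ_of_ne_zero hn0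
    have hi1 : a.2 * (i : ℝ) ^ 2 ≤ q.1 := by
      have := Nat.find_min hex (m := i) (by rw [← hn, hi]; exact Nat.lt_succ_self i)
      exact not_lt.1 this
    have hnk : n ≤ a.1 := Nat.find_min' hex h
    have hik : i < a.1 := by omega
    have hn2 : (n : ℝ) = i + 1 := by rw [hi]; push_cast; ring
    rw [hn2] at hn1
    have hch := h3 i hik
    have hpi : P a i ∈ convexHull ℝ (F a) := subset_convexHull ℝ _ ⟨i, by omega, rfl⟩
    have hpn : P a (i + 1) ∈ convexHull ℝ (F a) := subset_convexHull ℝ _ ⟨i + 1, by omega, rfl⟩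
    set d := a.2 * ((i : ℝ) + 1) ^ 2 - a.2 * (i : ℝ) ^ 2 with hd
    have hdpos : 0 < d := by linarith
    have hmix := (convex_convexHull ℝ (F a)) hpi hpn
      (a := (a.2 * ((i : ℝ) + 1) ^ 2 - q.1) / d) (b := (q.1 - a.2 * (i : ℝ) ^ 2) / d)
      (div_nonneg (by linarith) hdpos.le) (div_nonneg (by linarith) hdpos.le)
      (by field_simp; rw [hd]; ring)
    refine ⟨_, hmix, ?_, ?_⟩
    · simp only [Prod.fst_add, Prod.smul_fst, smul_eq_mul, P]
      push_cast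
      have : (a.2 * ((i : ℝ) + 1) ^ 2 - q.1) / d * (a.2 * (i : ℝ) ^ 2) +
          (q.1 - a.2 * (i : ℝ) ^ 2) / d * (a.2 * ((i : ℝ) + 1) ^ 2) = q.1 := by
        field_simp
        rw [hd]; ring
      rw [this]
    · set w := ((a.2 * ((i : ℝ) + 1) ^ 2 - q.1) / d) • P a i +
        ((q.1 - a.2 * (i : ℝ) ^ 2) / d) • P a (i + 1) with hw
      have e1 : w.1 = q.1 := by
        simp only [hw, Prod.fst_add, Prod.smul_fst, smul_eq_mul, P]
        push_cast
        field_simp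
        rw [hd]; ring
      have e2 : (2 * a.1 - 2 * i - 1) * w.1 + (2 * i + 1) * w.2 = a.2 * rhs a.1 i := by
        have f1 := chord_at a i i
        have f2 := chord_at a i (i + 1)
        have g1 : (2 * a.1 - 2 * i - 1) * (P a i).1 + (2 * i + 1) * (P a i).2 =
            a.2 * rhs a.1 i := by
          have : (2 * a.2 * a.1 * (((i : ℝ) - i) * ((i : ℝ) - (i + 1)))) = 0 := by ring
          linarith
        have g2 : (2 * a.1 - 2 * i - 1) * (P a (i + 1)).1 + (2 * i + 1) * (P a (i + 1)).2 =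
            a.2 * rhs a.1 i := by
          have : (2 * a.2 * a.1 * ((((i + 1 : ℕ) : ℝ) - i) * (((i + 1 : ℕ) : ℝ) - (i + 1)))) = 0 := by
            push_cast; ring
          linarith
        have g3 : (a.2 * ((i : ℝ) + 1) ^ 2 - q.1) / d + (q.1 - a.2 * (i : ℝ) ^ 2) / d = 1 := by
          field_simp; rw [hd]; ring
        simp only [hw, Prod.fst_add, Prod.smul_fst, smul_eq_mul, Prod.snd_add, Prod.smul_snd]
        calc (2 * (a.1 : ℝ) - 2 * i - 1) * ((a.2 * ((i : ℝ) + 1) ^ 2 - q.1) / d * (P a i).1 +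
              (q.1 - a.2 * (i : ℝ) ^ 2) / d * (P a (i + 1)).1) +
              (2 * i + 1) * ((a.2 * ((i : ℝ) + 1) ^ 2 - q.1) / d * (P a i).2 +
              (q.1 - a.2 * (i : ℝ) ^ 2) / d * (P a (i + 1)).2)
            = (a.2 * ((i : ℝ) + 1) ^ 2 - q.1) / d *
                ((2 * a.1 - 2 * i - 1) * (P a i).1 + (2 * i + 1) * (P a i).2) +
              (q.1 - a.2 * (i : ℝ) ^ 2) / d *
                ((2 * a.1 - 2 * i - 1) * (P a (i + 1)).1 + (2 * i + 1) * (P a (i + 1)).2) := by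
              ring
          _ = a.2 * rhs a.1 i := by rw [g1, g2, ← add_mul, g3, one_mul]
      rw [e1] at e2
      have h5 : (0 : ℝ) < 2 * i + 1 := by positivity
      by_contra hcon
      push Not at hcon
      have := mul_lt_mul_of_pos_left hcon h5
      linarith

end Pool.Agent.MP79dd7e
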